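import Mathlib

set_option autoImplicit false

namespace RC
open Finset BigOperators

/-- iterated exponential -/
def tow : ℕ → ℕ → ℕ
  | 0, x => x
  | (j + 1), x => 2 ^ tow j x

/-- a `k`-linear expression in `m` real functions on `ℕ` -/
noncomputable def kval {m k : ℕ} (F : Fin m → ℕ → ℝ) (c : (Fin k → Fin m) → ℝ)
    (x : Fin k → ℕ) : ℝ := ∑ J : Fin k → Fin m, c J * ∏ l, F (J l) (x l)

/-- the sign of `g` is the same for all increasing `k`-tuples of `T` -/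
def SignHom {k : ℕ} (g : (Fin k → ℕ) → ℝ) (T : Finset ℕ) : Prop :=
  ∃ s : SignType, ∀ x : Fin k → ℕ, StrictMono x → (∀ l, x l ∈ T) → SignType.sign (g x) = s

/-- linear combination of the functions `F j` -/
noncomputable def comb {m : ℕ} (F : Fin m → ℕ → ℝ) (p : Fin m → ℝ) (i : ℕ) : ℝ :=
  ∑ j, p j * F j i

/-- no nonzero combination vanishes at `m` points of `T` -/
def NonDeg {m : ℕ} (F : Fin m → ℕ → ℝ) (T : Finset ℕ) : Prop :=
  ∀ E ⊆ T, E.card = m → ∀ p : Fin m → ℝ, (∀ i ∈ E, comb F p i = 0) → p = 0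

/-- cross-ratio condition at the position `r` -/
def CRge {m : ℕ} (K : ℝ) (F : Fin m → ℕ → ℝ) (r : ℕ) (hr : r + 3 < m + 2)
    (w : Fin (m + 2) → ℕ) : Prop :=
  ∀ p q : Fin m → ℝ, p ≠ 0 → q ≠ 0 →
    (∀ l : Fin (m + 2), (l.val < r ∨ r + 3 < l.val) → comb F p (w l) = 0 ∧ comb F q (w l) = 0) →
    comb F p (w ⟨r, by omega⟩) = 0 → comb F q (w ⟨r + 3, by omega⟩) = 0 →
    K ≤ (comb F p (w ⟨r + 2, by omega⟩) / comb F p (w ⟨r + 1, by omega⟩)) *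
      (comb F q (w ⟨r + 1, by omega⟩) / comb F q (w ⟨r + 2, by omega⟩))

/-- all quotients `G q / G p`, `p < q`, grow by a factor `K` at every step -/
def Grow {m : ℕ} (K : ℝ) (G : Fin m → ℕ → ℝ) (M : Finset ℕ) : Prop :=
  (∀ r, ∀ i ∈ M, G r i ≠ 0) ∧
  ∀ p q : Fin m, p < q → ∀ i ∈ M, ∀ i' ∈ M, i < i' →
    K ≤ (G q i' / G q i) * (G p i / G p i')

/-- `g` is expanding on `T` with factor `K` -/
def Expd (K : ℝ) (g : ℕ → ℝ) (T : Finset ℕ) : Prop :=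
  ∀ i ∈ T, ∀ i' ∈ T, ∀ i'' ∈ T, i < i' → i' < i'' → K * (g i' - g i) ≤ g i'' - g i'

/-- `g` is contracting on `T` with factor `K` -/
def Contr (K : ℝ) (g : ℕ → ℝ) (T : Finset ℕ) : Prop :=
  ∀ i ∈ T, ∀ i' ∈ T, ∀ i'' ∈ T, i < i' → i' < i'' → K * (g i'' - g i') ≤ g i' - g i

/-- the functions `U g` are pairwise separated by the factor `K`, in a uniform way -/
def Sep {s : ℕ} (K : ℝ) (U : Fin s → ℕ → ℝ) (T : Finset ℕ) : Prop :=
  ∀ g g' : Fin s,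
    (∀ i ∈ T, ∀ i' ∈ T, i < i' → K * U g i ≤ U g' i') ∨
    (∀ i ∈ T, ∀ i' ∈ T, i < i' → K * U g' i' ≤ U g i)

/-- the constants `c j` are separated from the functions `U g` by the factor `K` -/
def CSep {s q : ℕ} (K : ℝ) (U : Fin s → ℕ → ℝ) (c : Fin q → ℝ) (T : Finset ℕ) : Prop :=
  ∀ (j : Fin q) (g : Fin s),
    (∀ i ∈ T, K * |c j| ≤ U g i) ∨ (∀ i ∈ T, K * U g i ≤ |c j|)

end RC
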