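import Pool.Agent.Helper850.RC.Defs

set_option autoImplicit false

namespace RC
open Finset BigOperators


theorem base_one (K Λ : ℝ) (hK : 1 ≤ K) (hΛ : 0 < Λ) (g : ℕ → ℝ) (T : Finset ℕ) (u v : ℕ)
    (hu : u ∈ T) (hv : v ∈ T) (hu' : ∀ i ∈ T, u ≤ i) (hv' : ∀ i ∈ T, i ≤ v)
    (hg : ∀ i ∈ T, ∀ i' ∈ T, i < i' → g i + Λ ≤ g i')
    (h : Expd K g T ∨ Contr K g T) :
    ∃ (β : ℝ) (σ : ℝ) (U : ℕ → ℝ), (σ = 1 ∨ σ = -1) ∧
      (∀ i, g i = β + σ * U i) ∧
      (∀ i ∈ (T.erase u).erase v, Λ ≤ U i) ∧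
      ((∀ i ∈ (T.erase u).erase v, ∀ i' ∈ (T.erase u).erase v, i < i' → K * U i ≤ U i') ∨
       (∀ i ∈ (T.erase u).erase v, ∀ i' ∈ (T.erase u).erase v, i < i' → K * U i' ≤ U i)) := by
  have hmem : ∀ i ∈ (T.erase u).erase v, i ∈ T ∧ i ≠ u ∧ i ≠ v := by
    intro i hi
    simp only [Finset.mem_erase] at hi
    exact ⟨hi.2.2, hi.2.1, hi.1⟩
  rcases h with h | h
  · refine ⟨g u, 1, fun i => g i - g u, Or.inl rfl, fun i => by ring, ?_, Or.inl ?_⟩
    · intro i hi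
      obtain ⟨hiT, hiu, _⟩ := hmem i hi
      have h1 : u < i := lt_of_le_of_ne (hu' i hiT) (Ne.symm hiu)
      have := hg u hu i hiT h1
      show Λ ≤ g i - g u
      linarith
    · intro i hi i' hi' hii
      obtain ⟨hiT, hiu, _⟩ := hmem i hi
      obtain ⟨hiT', _, _⟩ := hmem i' hi'
      have h1 : u < i := lt_of_le_of_ne (hu' i hiT) (Ne.symm hiu)
      have h2 := hg u hu i hiT h1
      have h3 := h u hu i hiT i' hiT' h1 hii
      show K * (g i - g u) ≤ g i' - g u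
      linarith
  · refine ⟨g v, -1, fun i => g v - g i, Or.inr rfl, fun i => by ring, ?_, Or.inr ?_⟩
    · intro i hi
      obtain ⟨hiT, _, hiv⟩ := hmem i hi
      have h1 : i < v := lt_of_le_of_ne (hv' i hiT) hiv
      have := hg i hiT v hv h1
      show Λ ≤ g v - g i
      linarith
    · intro i hi i' hi' hii
      obtain ⟨hiT, _, _⟩ := hmem i hi
      obtain ⟨hiT', _, hiv'⟩ := hmem i' hi'
      have h1 : i' < v := lt_of_le_of_ne (hv' i' hiT') hiv'
      have h2 := hg i' hiT' v hv h1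
      have h3 := h i hiT i' hiT' v hv hii h1
      show K * (g v - g i') ≤ g v - g i
      linarith

end RC
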