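import Pool.Agent.Helper850.RC.Defs

set_option autoImplicit false

namespace RC
open Finset BigOperators


theorem basis_change (m k : ℕ) (F : Fin m → ℕ → ℝ) (c : (Fin k → Fin m) → ℝ)
    (p : Fin m → Fin m → ℝ) (hp : LinearIndependent ℝ p) :
    ∃ c' : (Fin k → Fin m) → ℝ, ∀ x : Fin k → ℕ,
      kval F c x = kval (fun r => comb F (p r)) c' x := by
  have hspan := hp.span_eq_top_of_card_eq_finrank' (by simp)
  have hA : ∀ j : Fin m, ∃ A : Fin m → ℝ, ∑ r, A r • p r = Pi.single j (1 : ℝ) := by
    intro j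
    rw [← Submodule.mem_span_range_iff_exists_fun, hspan]
    exact Submodule.mem_top
  choose A hA using hA
  have hF : ∀ j i, F j i = ∑ r, A j r * comb F (p r) i := by
    intro j i
    have h1 : ∑ r, A j r * comb F (p r) i = ∑ j', (Pi.single j (1 : ℝ) : Fin m → ℝ) j' * F j' i := by
      rw [← hA j]
      simp only [comb, Finset.sum_apply, Pi.smul_apply, smul_eq_mul, Finset.mul_sum, Finset.sum_mul]
      rw [Finset.sum_comm]
      refine Finset.sum_congr rfl fun j' _ => Finset.sum_congr rfl fun r _ => ?_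
      ring
    rw [h1, Finset.sum_eq_single j]
    · rw [Pi.single_eq_same, one_mul]
    · intro j' _ hj'
      rw [Pi.single_eq_of_ne hj', zero_mul]
    · intro h
      exact absurd (Finset.mem_univ j) h
  refine ⟨fun J' => ∑ J, c J * ∏ l, A (J l) (J' l), fun x => ?_⟩
  have h2 : ∀ J : Fin k → Fin m, c J * ∏ l, F (J l) (x l) =
      ∑ J' : Fin k → Fin m, c J * ((∏ l, A (J l) (J' l)) * ∏ l, comb F (p (J' l)) (x l)) := by
    intro J
    rw [← Finset.mul_sum]
    congr 1
    have h3 : ∀ l, F (J l) (x l) = ∑ r, A (J l) r * comb F (p r) (x l) := fun l => hF _ _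
    rw [Finset.prod_congr rfl (fun l _ => h3 l), Finset.prod_univ_sum, Fintype.piFinset_univ]
    refine Finset.sum_congr rfl fun J' _ => ?_
    rw [Finset.prod_mul_distrib]
  unfold kval
  rw [Finset.sum_congr rfl (fun J _ => h2 J), Finset.sum_comm]
  refine Finset.sum_congr rfl fun J' _ => ?_
  rw [Finset.sum_mul]
  refine Finset.sum_congr rfl fun J _ => ?_
  ring

end RC
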