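import Pool.Agent.Helper850.RC.Defs

set_option autoImplicit false

namespace RC
open Finset BigOperators


theorem cr_mono_aux (n : ℕ) (t : ℕ → ℝ) (S : Finset ℕ) (hS : 2 * n + 6 ≤ S.card)
    (ht : ∀ i ∈ S, ∀ i' ∈ S, i < i' → t i < t i') :
    ∃ x ∈ S, ∃ y ∈ S, ∃ z ∈ S, ∃ w ∈ S, x < y ∧ y < z ∧ z < w ∧
      (n : ℝ) ≤ ((t z - t x) / (t y - t x)) * ((t y - t w) / (t z - t w)) := by
  obtain ⟨N, hN⟩ : ∃ N, N = S.card := ⟨_, rfl⟩
  rw [← hN] at hS
  obtain ⟨e, he1, he2⟩ : ∃ e : ℕ → ℕ, (∀ j < N, e j ∈ S) ∧ (∀ i j, i < j → j < N → e i < e j) := by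
    refine ⟨fun j => if h : j < N then S.orderEmbOfFin hN.symm ⟨j, h⟩ else 0, ?_, ?_⟩
    · intro j hj
      simp only [dif_pos hj]
      exact S.orderEmbOfFin_mem hN.symm _
    · intro i j hij hj
      simp only [dif_pos hj, dif_pos (hij.trans hj)]
      exact (S.orderEmbOfFin hN.symm).strictMono (by simpa using hij)
  have hv : ∀ i j, i < j → j < N → t (e i) < t (e j) := fun i j hij hj =>
    ht _ (he1 i (hij.trans hj)) _ (he1 j hj) (he2 i j hij hj)
  obtain ⟨j, hj, hmin⟩ := Finset.exists_min_image (Finset.range (N - 1))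
    (fun j => t (e (j + 1)) - t (e j)) ⟨0, by rw [Finset.mem_range]; omega⟩
  rw [Finset.mem_range] at hj
  set δ := t (e (j + 1)) - t (e j) with hδ
  have hδ0 : 0 < δ := by
    have := hv j (j + 1) (by omega) (by omega)
    linarith
  have hlow : ∀ i k : ℕ, i + k < N → (k : ℝ) * δ ≤ t (e (i + k)) - t (e i) := by
    intro i k
    induction k with
    | zero => intro _; simp
    | succ k ih =>
      intro hk
      have h1 := ih (by omega)
      have h2 := hmin (i + k) (by rw [Finset.mem_range]; omega)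
      have h3 : i + (k + 1) = i + k + 1 := by ring
      rw [h3]
      push_cast
      linarith
  by_cases hc : n + 2 ≤ j
  · refine ⟨e 0, he1 _ (by omega), e 1, he1 _ (by omega), e j, he1 _ (by omega), e (j + 1),
      he1 _ (by omega), he2 _ _ (by omega) (by omega), he2 _ _ (by omega) (by omega),
      he2 _ _ (by omega) (by omega), ?_⟩
    have h01 := hv 0 1 (by omega) (by omega)
    have h1j := hv 1 j (by omega) (by omega)
    have hA : 1 ≤ (t (e j) - t (e 0)) / (t (e 1) - t (e 0)) := by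
      rw [le_div_iff₀ (by linarith)]
      linarith
    have hB : (n : ℝ) ≤ (t (e 1) - t (e (j + 1))) / (t (e j) - t (e (j + 1))) := by
      rw [← neg_div_neg_eq, neg_sub, neg_sub, ← hδ, le_div_iff₀ hδ0]
      have h := hlow 1 j (by omega)
      rw [add_comm 1 j] at h
      have hn : (n : ℝ) ≤ j := by exact_mod_cast (by omega : n ≤ j)
      have := mul_le_mul_of_nonneg_right hn hδ0.le
      linarith
    calc (n : ℝ) = 1 * n := (one_mul _).symm
      _ ≤ _ := mul_le_mul hA hB (Nat.cast_nonneg _) (by linarith)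
  · refine ⟨e j, he1 _ (by omega), e (j + 1), he1 _ (by omega), e (N - 2), he1 _ (by omega),
      e (N - 1), he1 _ (by omega), he2 _ _ (by omega) (by omega), he2 _ _ (by omega) (by omega),
      he2 _ _ (by omega) (by omega), ?_⟩
    have h1 := hv (j + 1) (N - 2) (by omega) (by omega)
    have h2 := hv (N - 2) (N - 1) (by omega) (by omega)
    have hA : (n : ℝ) ≤ (t (e (N - 2)) - t (e j)) / (t (e (j + 1)) - t (e j)) := by
      rw [← hδ, le_div_iff₀ hδ0]
      have h := hlow j (N - 2 - j) (by omega)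
      have h3 : j + (N - 2 - j) = N - 2 := by omega
      rw [h3] at h
      have hn : (n : ℝ) ≤ ((N - 2 - j : ℕ) : ℝ) := by exact_mod_cast (by omega : n ≤ N - 2 - j)
      have := mul_le_mul_of_nonneg_right hn hδ0.le
      linarith
    have hB : 1 ≤ (t (e (j + 1)) - t (e (N - 1))) / (t (e (N - 2)) - t (e (N - 1))) := by
      rw [← neg_div_neg_eq, neg_sub, neg_sub, le_div_iff₀ (by linarith)]
      linarith
    calc (n : ℝ) = n * 1 := (mul_one _).symm
      _ ≤ _ := mul_le_mul hA hB zero_le_one (le_trans (Nat.cast_nonneg _) hA)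

theorem cr_mono (n : ℕ) (t : ℕ → ℝ) (S : Finset ℕ) (hS : 2 * n + 6 ≤ S.card)
    (ht : (∀ i ∈ S, ∀ i' ∈ S, i < i' → t i < t i') ∨ (∀ i ∈ S, ∀ i' ∈ S, i < i' → t i' < t i)) :
    ∃ x ∈ S, ∃ y ∈ S, ∃ z ∈ S, ∃ w ∈ S, x < y ∧ y < z ∧ z < w ∧
      (n : ℝ) ≤ ((t z - t x) / (t y - t x)) * ((t y - t w) / (t z - t w)) := by
  rcases ht with ht | ht
  · exact cr_mono_aux n t S hS ht
  · obtain ⟨x, hx, y, hy, z, hz, w, hw, h1, h2, h3, h4⟩ := cr_mono_aux n (fun i => -t i) S hS
      (fun i hi i' hi' h => neg_lt_neg (ht i hi i' hi' h))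
    refine ⟨x, hx, y, hy, z, hz, w, hw, h1, h2, h3, ?_⟩
    have e1 : (-t z - -t x) / (-t y - -t x) = (t z - t x) / (t y - t x) := by
      rw [← neg_div_neg_eq]
      congr 1 <;> ring
    have e2 : (-t y - -t w) / (-t z - -t w) = (t y - t w) / (t z - t w) := by
      rw [← neg_div_neg_eq]
      congr 1 <;> ring
    simp only [e1, e2] at h4
    exact h4

end RC
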