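import Pool.Agent.Helper850.RC.Defs

set_option autoImplicit false

namespace RC
open Finset BigOperators


theorem exists_vanish (m : ℕ) (F : Fin m → ℕ → ℝ) (E : Finset ℕ) (hE : E.card + 1 ≤ m) :
    ∃ p : Fin m → ℝ, p ≠ 0 ∧ ∀ i ∈ E, comb F p i = 0 := by
  let L : (Fin m → ℝ) →ₗ[ℝ] (E → ℝ) :=
    { toFun := fun p i => comb F p i
      map_add' := by
        intro p q
        funext i
        simp [comb, add_mul, Finset.sum_add_distrib]
      map_smul' := by
        intro c p
        funext i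
        simp [comb, Finset.mul_sum, mul_assoc] }
  have hlt : Module.finrank ℝ (E → ℝ) < Module.finrank ℝ (Fin m → ℝ) := by
    simp
    omega
  have hk : LinearMap.ker L ≠ ⊥ := LinearMap.ker_ne_bot_of_finrank_lt hlt
  obtain ⟨p, hp, hp0⟩ := Submodule.exists_mem_ne_zero_of_ne_bot hk
  refine ⟨p, hp0, fun i hi => ?_⟩
  have := congrFun (LinearMap.mem_ker.mp hp) ⟨i, hi⟩
  exact this

end RC
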