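import Pool.Agent.Helper850.RC.Defs

set_option autoImplicit false

namespace RC
open Finset BigOperators


theorem rs_split {t q : ℕ} (s : ℕ) (χ : (Fin (t + 1) → ℕ) → Fin q) (Q R0 : Finset ℕ)
    (hQ : Q.card ≤ s) (n : ℕ) (hn : 2 ^ (q * s ^ t) * n ≤ R0.card) :
    ∃ R ⊆ R0, n ≤ R.card ∧ ∀ z : Fin t → ℕ, (∀ l, z l ∈ Q) → ∀ y ∈ R, ∀ y' ∈ R,
      χ (Fin.snoc z y) = χ (Fin.snoc z y') := by
  classical
  let f : ℕ → ((Fin t → Q) → Fin q) := fun y z => χ (Fin.snoc (fun l => (z l : ℕ)) y)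
  have hcard : (Finset.univ : Finset ((Fin t → Q) → Fin q)).card ≤ 2 ^ (q * s ^ t) := by
    have h1 : (Finset.univ : Finset ((Fin t → Q) → Fin q)).card = q ^ (Q.card ^ t) := by
      rw [Finset.card_univ]
      simp
    rw [h1]
    calc q ^ (Q.card ^ t) ≤ (2 ^ q) ^ (Q.card ^ t) := Nat.pow_le_pow_left (Nat.lt_two_pow_self.le) _
      _ = 2 ^ (q * Q.card ^ t) := (pow_mul _ _ _).symm
      _ ≤ 2 ^ (q * s ^ t) := Nat.pow_le_pow_right (by norm_num)
          (Nat.mul_le_mul_left _ (Nat.pow_le_pow_left hQ _))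
  obtain ⟨c, -, hc⟩ := Finset.exists_le_card_fiber_of_mul_le_card_of_maps_to (s := R0)
    (t := (Finset.univ : Finset ((Fin t → Q) → Fin q))) (f := f) (n := n)
    (fun _ _ => Finset.mem_univ _) ⟨f 0, Finset.mem_univ _⟩
    (le_trans (Nat.mul_le_mul_right _ hcard) hn)
  refine ⟨R0.filter (fun y => f y = c), Finset.filter_subset _ _, hc, ?_⟩
  intro z hz y hy y' hy'
  have h1 := (Finset.mem_filter.1 hy).2
  have h2 := (Finset.mem_filter.1 hy').2
  exact congrFun (h1.trans h2.symm) (fun l => ⟨z l, hz l⟩)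

def RsInv {t q : ℕ} (χ : (Fin (t + 1) → ℕ) → Fin q) (Q R : Finset ℕ) : Prop :=
  (∀ a ∈ Q, ∀ b ∈ R, a < b) ∧ ∀ z : Fin t → ℕ, (∀ l, z l ∈ Q) → ∀ y ∈ Q ∪ R, ∀ y' ∈ Q ∪ R,
    (∀ l, z l < y) → (∀ l, z l < y') → χ (Fin.snoc z y) = χ (Fin.snoc z y')

theorem rs_main {t q : ℕ} (s : ℕ) (χ : (Fin (t + 1) → ℕ) → Fin q) (n : ℕ) :
    ∀ Q R : Finset ℕ, Q.card + n ≤ s → RsInv χ Q R → (2 ^ (q * s ^ t + 1)) ^ n ≤ R.card →
      ∃ T, T ⊆ Q ∪ R ∧ T.card = Q.card + n ∧ RsInv χ T ∅ := by
  induction n with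
  | zero =>
    intro Q R _ hI _
    refine ⟨Q, Finset.subset_union_left, rfl, ?_, ?_⟩
    · intro a _ b hb
      simp at hb
    · intro z hz y hy y' hy'
      rw [Finset.union_empty] at hy hy'
      exact hI.2 z hz y (Finset.mem_union_left _ hy) y' (Finset.mem_union_left _ hy')
  | succ n ih =>
    intro Q R hQ hI hR
    have hpos : 0 < (2 ^ (q * s ^ t + 1)) ^ (n + 1) := by positivity
    have hne : R.Nonempty := Finset.card_pos.1 (lt_of_lt_of_le hpos hR)
    set x := R.min' hne with hx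
    have hxR : x ∈ R := Finset.min'_mem _ _
    have hxQ : x ∉ Q := fun h => lt_irrefl _ (hI.1 x h x hxR)
    have hQ' : (insert x Q).card = Q.card + 1 := Finset.card_insert_of_notMem hxQ
    have hR1 : 2 ^ (q * s ^ t) * (2 ^ (q * s ^ t + 1)) ^ n ≤ (R.erase x).card := by
      rw [Finset.card_erase_of_mem hxR]
      have h1 : (2 ^ (q * s ^ t + 1)) ^ (n + 1) =
          2 * (2 ^ (q * s ^ t) * (2 ^ (q * s ^ t + 1)) ^ n) := by
        rw [pow_succ (2 ^ (q * s ^ t + 1)) n, pow_succ 2 (q * s ^ t)]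
        ring
      have h2 : 0 < 2 ^ (q * s ^ t) * (2 ^ (q * s ^ t + 1)) ^ n := by positivity
      omega
    obtain ⟨R', hR'1, hR'2, hR'3⟩ := rs_split s χ (insert x Q) (R.erase x) (by omega) _ hR1
    have hR'R : R' ⊆ R := hR'1.trans (Finset.erase_subset _ _)
    have hxlt : ∀ b ∈ R', x < b := by
      intro b hb
      have hb' := Finset.mem_erase.1 (hR'1 hb)
      exact lt_of_le_of_ne (Finset.min'_le _ _ hb'.2) (Ne.symm hb'.1)
    have hI' : RsInv χ (insert x Q) R' := by
      refine ⟨?_, ?_⟩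
      · intro a ha b hb
        rcases Finset.mem_insert.1 ha with rfl | ha
        · exact hxlt b hb
        · exact hI.1 a ha b (hR'R hb)
      · intro z hz y hy y' hy' hzy hzy'
        by_cases hxl : ∃ l, z l = x
        · obtain ⟨l, hl⟩ := hxl
          have hmem : ∀ w ∈ insert x Q ∪ R', (∀ l, z l < w) → w ∈ R' := by
            intro w hw hzw
            rcases Finset.mem_union.1 hw with h | h
            · exfalso
              have h3 := hzw l
              rw [hl] at h3
              rcases Finset.mem_insert.1 h with h | h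
              · omega
              · have := hI.1 w h x hxR
                omega
            · exact h
          exact hR'3 z hz y (hmem y hy hzy) y' (hmem y' hy' hzy')
        · have hzQ : ∀ l, z l ∈ Q := by
            intro l
            rcases Finset.mem_insert.1 (hz l) with h | h
            · exact absurd ⟨l, h⟩ hxl
            · exact h
          have hmem : ∀ w ∈ insert x Q ∪ R', w ∈ Q ∪ R := by
            intro w hw
            rcases Finset.mem_union.1 hw with h | h
            · rcases Finset.mem_insert.1 h with rfl | h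
              · exact Finset.mem_union_right _ hxR
              · exact Finset.mem_union_left _ h
            · exact Finset.mem_union_right _ (hR'R h)
          exact hI.2 z hzQ y (hmem y hy) y' (hmem y' hy') hzy hzy'
    obtain ⟨T, hT1, hT2, hT3⟩ := ih (insert x Q) R' (by omega) hI' hR'2
    refine ⟨T, ?_, by omega, hT3⟩
    intro w hw
    rcases Finset.mem_union.1 (hT1 hw) with h | h
    · rcases Finset.mem_insert.1 h with rfl | h
      · exact Finset.mem_union_right _ hxR
      · exact Finset.mem_union_left _ h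
    · exact Finset.mem_union_right _ (hR'R h)

theorem ramsey_step (t q s : ℕ) (S : Finset ℕ)
    (hS : 2 ^ ((q + 1) * (s + 1) ^ (t + 2)) ≤ S.card)
    (χ : (Fin (t + 1) → ℕ) → Fin q) :
    ∃ T ⊆ S, T.card = s ∧ ∀ x y : Fin (t + 1) → ℕ, StrictMono x → StrictMono y →
      (∀ l, x l ∈ T) → (∀ l, y l ∈ T) → (∀ l : Fin t, x l.castSucc = y l.castSucc) →
      χ x = χ y := by
  have hexp : q * s ^ t + (q * s ^ t + 1) * s ≤ (q + 1) * (s + 1) ^ (t + 2) := by
    have h1 : s ^ t ≤ (s + 1) ^ t := Nat.pow_le_pow_left (by omega) _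
    have h2 : (s + 1) ^ (t + 2) = (s + 1) ^ t * (s + 1) * (s + 1) := by ring
    have h3 : 1 ≤ (s + 1) ^ t := Nat.one_le_pow _ _ (by omega)
    have h4 : q * s ^ t + (q * s ^ t + 1) * s = q * (s ^ t * (s + 1)) + s := by ring
    rw [h4, h2]
    have h5 : s ^ t * (s + 1) ≤ (s + 1) ^ t * (s + 1) * (s + 1) := by
      calc s ^ t * (s + 1) ≤ (s + 1) ^ t * (s + 1) := Nat.mul_le_mul_right _ h1
        _ ≤ (s + 1) ^ t * (s + 1) * (s + 1) := Nat.le_mul_of_pos_right _ (by omega)
    have h6 : s ≤ (s + 1) ^ t * (s + 1) * (s + 1) := by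
      have : 1 * (s + 1) * 1 ≤ (s + 1) ^ t * (s + 1) * (s + 1) :=
        Nat.mul_le_mul (Nat.mul_le_mul_right _ h3) (by omega)
      omega
    nlinarith [Nat.mul_le_mul_left q h5]
  have hS' : 2 ^ (q * s ^ t) * (2 ^ (q * s ^ t + 1)) ^ s ≤ S.card := by
    rw [← pow_mul, ← pow_add]
    exact (Nat.pow_le_pow_right (by norm_num) hexp).trans hS
  obtain ⟨R, hR1, hR2, hR3⟩ := rs_split s χ ∅ S (by simp) _ hS'
  have hI : RsInv χ ∅ R := by
    refine ⟨?_, ?_⟩
    · intro a ha
      simp at ha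
    · intro z hz y hy y' hy' _ _
      rw [Finset.empty_union] at hy hy'
      exact hR3 z hz y hy y' hy'
  obtain ⟨T, hT1, hT2, hT3⟩ := rs_main s χ s ∅ R (by simp) hI hR2
  refine ⟨T, ?_, by simpa using hT2, ?_⟩
  · rw [Finset.empty_union] at hT1
    exact hT1.trans hR1
  · intro x y hx hy hxT hyT hxy
    have e1 : Fin.snoc (fun l : Fin t => x l.castSucc) (x (Fin.last t)) = x := by
      exact Fin.snoc_init_self x
    have e2 : Fin.snoc (fun l : Fin t => x l.castSucc) (y (Fin.last t)) = y := by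
      have : (fun l : Fin t => x l.castSucc) = (fun l : Fin t => y l.castSucc) := funext hxy
      rw [this]
      exact Fin.snoc_init_self y
    have h := hT3.2 (fun l : Fin t => x l.castSucc) (fun l => hxT _) (x (Fin.last t))
      (Finset.mem_union_left _ (hxT _)) (y (Fin.last t)) (Finset.mem_union_left _ (hyT _))
      (fun l => hx (Fin.castSucc_lt_last l))
      (fun l => by rw [hxy l]; exact hy (Fin.castSucc_lt_last l))
    have h' : χ (Fin.snoc (fun l : Fin t => x l.castSucc) (x (Fin.last t))) =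
      χ (Fin.snoc (fun l : Fin t => x l.castSucc) (y (Fin.last t))) := h
    rw [e1, e2] at h'
    exact h'

end RC
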