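import Pool.Agent.Helper850.RC.Defs

set_option autoImplicit false

namespace RC
open Finset BigOperators


theorem tow_mono (C x y : ℕ) (h : x ≤ y) : tow C x ≤ tow C y := by
  induction C with
  | zero => exact h
  | succ C ih => exact Nat.pow_le_pow_right (by norm_num) ih

end RC
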