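import Pool.Agent.Helper850.RC.Defs
import Pool.Agent.Helper850.RC.P_tow_mono

set_option autoImplicit false

namespace RC
open Finset BigOperators


theorem tow_absorb (C b a : ℕ) : ∃ a' : ℕ, ∀ n : ℕ,
    b * (tow C (a * (n + 1)) + 1) ≤ tow C (a' * (n + 1)) := by
  revert b a
  induction C with
  | zero =>
    intro b a
    refine ⟨b * (a + 1), fun n => ?_⟩
    simp only [tow]
    have h : a * (n + 1) + 1 ≤ (a + 1) * (n + 1) := by nlinarith
    calc b * (a * (n + 1) + 1) ≤ b * ((a + 1) * (n + 1)) := Nat.mul_le_mul_left _ h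
      _ = b * (a + 1) * (n + 1) := by ring
  | succ C ih =>
    intro b a
    obtain ⟨a', ha'⟩ := ih (b + 1) a
    refine ⟨a', fun n => ?_⟩
    have h := ha' n
    simp only [tow]
    generalize tow C (a * (n + 1)) = y at h ⊢
    generalize tow C (a' * (n + 1)) = z at h ⊢
    have hb : b ≤ 2 ^ b := Nat.lt_two_pow_self.le
    have h1 : 1 ≤ 2 ^ y := Nat.one_le_two_pow
    have hy : 2 ^ y + 1 ≤ 2 ^ (y + 1) := by
      rw [pow_succ]
      omega
    calc b * (2 ^ y + 1) ≤ 2 ^ b * 2 ^ (y + 1) := Nat.mul_le_mul hb hy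
      _ = 2 ^ (b + (y + 1)) := (pow_add _ _ _).symm
      _ ≤ 2 ^ z := Nat.pow_le_pow_right (by norm_num) (by nlinarith)

end RC
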