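import Pool.Agent.Helper850.RC.Defs

set_option autoImplicit false

namespace RC
open Finset BigOperators


theorem tow_add (C D x : ℕ) : tow C (tow D x) = tow (C + D) x := by
  induction C with
  | zero => rw [Nat.zero_add]; rfl
  | succ C ih =>
    rw [Nat.add_right_comm C 1 D]
    show 2 ^ tow C (tow D x) = 2 ^ tow (C + D) x
    rw [ih]

end RC
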