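import Pool.Agent.Helper850.RC.Defs

set_option autoImplicit false

namespace RC
open Finset BigOperators


theorem tow_le_add (C D x : ℕ) : tow C x ≤ tow (C + D) x := by
  induction D with
  | zero => exact le_rfl
  | succ D ih =>
    refine ih.trans ?_
    show tow (C + D) x ≤ 2 ^ tow (C + D) x
    exact Nat.lt_two_pow_self.le

end RC
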