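import Pool.Agent.Helper850.RC.Defs
import Pool.Agent.Helper850.RC.P_tow_mono
import Pool.Agent.Helper850.RC.P_tow_add
import Pool.Agent.Helper850.RC.P_tow_absorb
import Pool.Agent.Helper850.RC.P_tow_le_add
import Pool.Agent.Helper850.RC.P_ramsey_step

set_option autoImplicit false

namespace RC
open Finset BigOperators


theorem ramsey_snoc {t : ℕ} (z : Fin t → ℕ) (M0 : ℕ) (hz : StrictMono z) (h : ∀ l, z l < M0) :
    StrictMono (Fin.snoc (α := fun _ => ℕ) z M0 : Fin (t + 1) → ℕ) := by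
  intro i j hij
  induction j using Fin.lastCases with
  | last =>
    induction i using Fin.lastCases with
    | last => exact absurd hij (lt_irrefl _)
    | cast i' => rw [Fin.snoc_last, Fin.snoc_castSucc]; exact h i'
  | cast j' =>
    induction i using Fin.lastCases with
    | last => exact absurd (hij.trans (Fin.castSucc_lt_last j')) (lt_irrefl _)
    | cast i' =>
      rw [Fin.snoc_castSucc, Fin.snoc_castSucc]
      exact hz (Fin.castSucc_lt_castSucc_iff.mp hij)

theorem ramsey_num (q t y : ℕ) : (q + 1) * (y + 1 + 1) ^ (t + 2) ≤ 2 ^ ((q + t + 2) * (y + 1)) := by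
  have h1 : q + 1 ≤ 2 ^ q := Nat.lt_two_pow_self
  have h2 : y + 1 + 1 ≤ 2 ^ (y + 1) := Nat.lt_two_pow_self
  calc (q + 1) * (y + 1 + 1) ^ (t + 2) ≤ 2 ^ q * (2 ^ (y + 1)) ^ (t + 2) :=
        Nat.mul_le_mul h1 (Nat.pow_le_pow_left h2 _)
    _ = 2 ^ (q + (y + 1) * (t + 2)) := by rw [← pow_mul, ← pow_add]
    _ ≤ 2 ^ ((q + t + 2) * (y + 1)) := by
        apply Nat.pow_le_pow_right (by norm_num)
        nlinarith [Nat.zero_le (q * y)]

theorem ramsey (t : ℕ) : ∃ C : ℕ, ∀ q : ℕ, ∃ a : ℕ, ∀ (n : ℕ) (S : Finset ℕ),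
    tow C (a * (n + 1)) ≤ S.card → ∀ χ : (Fin t → ℕ) → Fin q,
      ∃ T ⊆ S, T.card = n ∧ ∀ x y : Fin t → ℕ, StrictMono x → StrictMono y →
        (∀ l, x l ∈ T) → (∀ l, y l ∈ T) → χ x = χ y := by
  induction t with
  | zero =>
    refine ⟨0, fun q => ⟨1, fun n S hS χ => ?_⟩⟩
    have hS' : 1 * (n + 1) ≤ S.card := hS
    obtain ⟨T, hT, hTc⟩ := Finset.exists_subset_card_eq (by omega : n ≤ S.card)
    exact ⟨T, hT, hTc, fun x y _ _ _ _ => by rw [Subsingleton.elim x y]⟩
  | succ t ih =>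
    obtain ⟨C, hC⟩ := ih
    refine ⟨C + 2, fun q => ?_⟩
    obtain ⟨a, ha⟩ := hC q
    obtain ⟨a', ha'⟩ := tow_absorb C (q + t + 2) a
    refine ⟨a', fun n S hS χ => ?_⟩
    have h1 : 2 ^ ((q + 1) * (tow C (a * (n + 1)) + 1 + 1) ^ (t + 2)) ≤ S.card := by
      refine le_trans ?_ hS
      show _ ≤ 2 ^ (2 ^ tow C (a' * (n + 1)))
      apply Nat.pow_le_pow_right (by norm_num)
      refine (ramsey_num q t _).trans ?_
      apply Nat.pow_le_pow_right (by norm_num)
      exact ha' n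
    obtain ⟨T1, hT1, hT1c, hT1h⟩ := ramsey_step t q (tow C (a * (n + 1)) + 1) S h1 χ
    have hne : T1.Nonempty := by
      rw [← Finset.card_pos, hT1c]; omega
    set M0 := T1.max' hne with hM0
    have hM0m : M0 ∈ T1 := Finset.max'_mem _ _
    have hT2c : (T1.erase M0).card = tow C (a * (n + 1)) := by
      rw [Finset.card_erase_of_mem hM0m, hT1c]; rfl
    obtain ⟨T, hT, hTc, hTh⟩ := ha n (T1.erase M0) hT2c.ge
      (fun z => χ (Fin.snoc (α := fun _ => ℕ) z M0 : Fin (t + 1) → ℕ))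
    have hlt : ∀ v ∈ T, v < M0 := by
      intro v hv
      have h2 := Finset.mem_erase.mp (hT hv)
      exact lt_of_le_of_ne (Finset.le_max' _ _ h2.2) h2.1
    have hT1' : ∀ v ∈ T, v ∈ T1 := fun v hv => (Finset.mem_erase.mp (hT hv)).2
    have key : ∀ x : Fin (t + 1) → ℕ, StrictMono x → (∀ l, x l ∈ T) →
        χ x = χ (Fin.snoc (α := fun _ => ℕ) (fun l : Fin t => x l.castSucc) M0 :
          Fin (t + 1) → ℕ) := by
      intro x hx hxT
      apply hT1h x _ hx
      · apply ramsey_snoc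
        · exact hx.comp (Fin.strictMono_castSucc)
        · exact fun l => hlt _ (hxT _)
      · exact fun l => hT1' _ (hxT l)
      · intro l
        induction l using Fin.lastCases with
        | last => rw [Fin.snoc_last]; exact hM0m
        | cast l' => rw [Fin.snoc_castSucc]; exact hT1' _ (hxT _)
      · intro l
        rw [Fin.snoc_castSucc]
    refine ⟨T, fun v hv => hT1 (hT1' v hv), hTc, ?_⟩
    intro x y hx hy hxT hyT
    rw [key x hx hxT, key y hy hyT]
    exact hTh _ _ (hx.comp Fin.strictMono_castSucc) (hy.comp Fin.strictMono_castSucc)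
      (fun l => hxT _) (fun l => hyT _)

end RC
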