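import Pool.Agent.Helper850.RC.Defs
import Pool.Agent.Helper850.RC.P_ramsey

set_option autoImplicit false

namespace RC
open Finset BigOperators


theorem ramseyP (t : ℕ) : ∃ C : ℕ, ∀ (κ : Type) [Fintype κ], ∃ a : ℕ,
    ∀ (n : ℕ) (S : Finset ℕ), tow C (a * (n + 1)) ≤ S.card →
      ∀ P : κ → (Fin t → ℕ) → Prop,
        ∃ T ⊆ S, T.card = n ∧ ∀ j : κ,
          (∀ x : Fin t → ℕ, StrictMono x → (∀ l, x l ∈ T) → P j x) ∨
          (∀ x : Fin t → ℕ, StrictMono x → (∀ l, x l ∈ T) → ¬ P j x) := by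
  classical
  obtain ⟨C, hC⟩ := ramsey t
  refine ⟨C, fun κ _ => ?_⟩
  obtain ⟨a, ha⟩ := hC (Fintype.card (κ → Bool))
  refine ⟨a, fun n S hS P => ?_⟩
  let e := Fintype.equivFin (κ → Bool)
  obtain ⟨T, hTS, hTn, hT⟩ := ha n S hS (fun x => e (fun j => decide (P j x)))
  refine ⟨T, hTS, hTn, fun j => ?_⟩
  by_cases h : ∃ x : Fin t → ℕ, StrictMono x ∧ (∀ l, x l ∈ T) ∧ P j x
  · obtain ⟨x, hx1, hx2, hx3⟩ := h
    left
    intro y hy1 hy2
    have h1 := e.injective (hT x y hx1 hy1 hx2 hy2)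
    have h2 := congrFun h1 j
    simp only [decide_eq_decide] at h2
    exact h2.mp hx3
  · right
    intro x hx1 hx2 hx3
    exact h ⟨x, hx1, hx2, hx3⟩

end RC
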