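import Pool.Agent.Helper850.RC.Defs

set_option autoImplicit false

namespace RC
open Finset BigOperators


theorem vanish_ne (m : ℕ) (F : Fin m → ℕ → ℝ) (T : Finset ℕ) (hT : NonDeg F T)
    (E : Finset ℕ) (hE : E ⊆ T) (hEc : E.card + 1 = m) (p : Fin m → ℝ) (hp : p ≠ 0)
    (h1 : ∀ i ∈ E, comb F p i = 0) (i : ℕ) (hi : i ∈ T) (hiE : i ∉ E) : comb F p i ≠ 0 := by
  intro h0
  refine hp (hT (insert i E) ?_ ?_ p ?_)
  · exact Finset.insert_subset hi hE
  · rw [Finset.card_insert_of_notMem hiE, hEc]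
  · intro k hk
    rcases Finset.mem_insert.mp hk with rfl | hk
    · exact h0
    · exact h1 k hk

end RC
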