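import Pool.Agent.Helper850.RC.Defs
import Pool.Agent.Helper850.RC.P_vanish_ne

set_option autoImplicit false

namespace RC
open Finset BigOperators


theorem unique_vanish (m : ℕ) (F : Fin m → ℕ → ℝ) (T : Finset ℕ) (hT : NonDeg F T)
    (hm : m ≤ T.card)
    (E : Finset ℕ) (hE : E ⊆ T) (hEc : E.card + 1 = m) (p q : Fin m → ℝ) (hp : p ≠ 0) (hq : q ≠ 0)
    (h1 : ∀ i ∈ E, comb F p i = 0) (h2 : ∀ i ∈ E, comb F q i = 0) :
    ∃ s : ℝ, s ≠ 0 ∧ q = fun j => s * p j := by
  have hex : ∃ i ∈ T, i ∉ E := by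
    by_contra hcon
    push Not at hcon
    have : T.card ≤ E.card := Finset.card_le_card (fun i hi => hcon i hi)
    omega
  obtain ⟨i, hiT, hiE⟩ := hex
  have hpi := vanish_ne m F T hT E hE hEc p hp h1 i hiT hiE
  have hqi := vanish_ne m F T hT E hE hEc q hq h2 i hiT hiE
  have hlin : ∀ (s : ℝ) (k : ℕ), comb F (fun j => q j - s * p j) k = comb F q k - s * comb F p k := by
    intro s k
    unfold comb
    rw [Finset.mul_sum, ← Finset.sum_sub_distrib]
    refine Finset.sum_congr rfl fun j _ => ?_
    ring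
  refine ⟨comb F q i / comb F p i, div_ne_zero hqi hpi, ?_⟩
  have hz := hT (insert i E) (Finset.insert_subset hiT hE)
    (by rw [Finset.card_insert_of_notMem hiE]; exact hEc)
    (fun j => q j - (comb F q i / comb F p i) * p j) (by
      intro k hk
      rw [hlin]
      rcases Finset.mem_insert.mp hk with h | h
      · rw [h, div_mul_cancel₀ _ hpi, sub_self]
      · rw [h1 k h, h2 k h, mul_zero, sub_self])
  funext j
  have := congrFun hz j
  simp only [Pi.zero_apply] at this
  linarith

end RC
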