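import Pool.Agent.Helper850.RC.Defs
import Pool.Agent.Helper850.RC.P_ramseyP
import Pool.Agent.Helper850.RC.P_exists_vanish
import Pool.Agent.Helper850.RC.P_unique_vanish
import Pool.Agent.Helper850.RC.P_vanish_ne
import Pool.Agent.Helper850.RC.P_cr_mono

set_option autoImplicit false

namespace RC
open Finset BigOperators


theorem cr_true_core (r d : ℕ) (K : ℝ) (n1 : ℕ) (hK : K ≤ n1) (N2 : ℕ)
    (hR : ∀ (S : Finset ℕ), N2 ≤ S.card → ∀ P : (Fin 2 → ℕ) → Prop,
      ∃ T ⊆ S, T.card = 2 * n1 + 6 ∧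
        ((∀ x : Fin 2 → ℕ, StrictMono x → (∀ l, x l ∈ T) → P x) ∨
         (∀ x : Fin 2 → ℕ, StrictMono x → (∀ l, x l ∈ T) → ¬ P x)))
    (F : Fin (r + 2 + d) → ℕ → ℝ) (b : ℕ) (hT : NonDeg F (range (b + d)))
    (hc : N2 + (r + 2 + d) + 5 ≤ b + d) (hr : r + 3 < r + 2 + d + 2)
    (hw : ∀ w : Fin (r + 2 + d + 2) → ℕ, StrictMono w → (∀ l, w l < b + d) →
      ¬ CRge K F r hr w) : False := by
  let E0 : Finset ℕ := range r ∪ Ico b (b + d)
  have hE0 : ∀ i, i ∈ E0 ↔ i < r ∨ (b ≤ i ∧ i < b + d) := by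
    intro i
    show i ∈ range r ∪ Ico b (b + d) ↔ _
    rw [Finset.mem_union, Finset.mem_range, Finset.mem_Ico]
  have hE0c : E0.card = r + d := by
    show (range r ∪ Ico b (b + d)).card = r + d
    rw [Finset.card_union_of_disjoint, Finset.card_range, Nat.card_Ico, Nat.add_sub_cancel_left]
    rw [Finset.disjoint_left]
    intro i hi hi'
    rw [Finset.mem_range] at hi
    rw [Finset.mem_Ico] at hi'
    omega
  have hins1 : ∀ i, r ≤ i → i < b → (insert i E0).card + 1 = r + 2 + d := by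
    intro i h1 h2
    rw [Finset.card_insert_of_notMem, hE0c]
    · omega
    · rw [hE0]; omega
  have hins2 : ∀ i j, r ≤ i → i < b → r ≤ j → j < b → i ≠ j →
      (insert i (insert j E0)).card = r + 2 + d := by
    intro i j h1 h2 h3 h4 h5
    rw [Finset.card_insert_of_notMem, hins1 j h3 h4]
    rw [Finset.mem_insert, hE0]
    omega
  have hsub0 : E0 ⊆ range (b + d) := by
    intro i hi
    rw [hE0] at hi
    rw [Finset.mem_range]
    omega
  have hsub1 : ∀ i, i < b → insert i E0 ⊆ range (b + d) := by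
    intro i hi
    exact Finset.insert_subset (Finset.mem_range.2 (by omega)) hsub0
  have hsub2 : ∀ i j, i < b → j < b → insert i (insert j E0) ⊆ range (b + d) := by
    intro i j hi hj
    exact Finset.insert_subset (Finset.mem_range.2 (by omega)) (hsub1 j hj)
  obtain ⟨ψ, hψ0, hψ⟩ := exists_vanish (r + 2 + d) F (insert (b - 1) E0)
    (le_of_eq (hins1 (b - 1) (by omega) (by omega)))
  obtain ⟨φ, hφ0, hφ⟩ := exists_vanish (r + 2 + d) F (insert r E0)
    (le_of_eq (hins1 r le_rfl (by omega)))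
  have hψE : ∀ i ∈ E0, comb F ψ i = 0 := fun i hi => hψ i (Finset.mem_insert_of_mem hi)
  have hφE : ∀ i ∈ E0, comb F φ i = 0 := fun i hi => hφ i (Finset.mem_insert_of_mem hi)
  have hψb : comb F ψ (b - 1) = 0 := hψ _ (Finset.mem_insert_self _ _)
  have hφr : comb F φ r = 0 := hφ _ (Finset.mem_insert_self _ _)
  have hψne : ∀ i, r ≤ i → i < b - 1 → comb F ψ i ≠ 0 := by
    intro i h1 h2
    refine vanish_ne (r + 2 + d) F (range (b + d)) hT (insert (b - 1) E0)
      (hsub1 _ (by omega)) (hins1 _ (by omega) (by omega)) ψ hψ0 hψ i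
      (Finset.mem_range.2 (by omega)) ?_
    rw [Finset.mem_insert, hE0]
    omega
  have hlin : ∀ (s : ℝ) (i : ℕ), comb F (fun j => φ j - s * ψ j) i =
      comb F φ i - s * comb F ψ i := by
    intro s i
    unfold comb
    rw [Finset.mul_sum, ← Finset.sum_sub_distrib]
    refine Finset.sum_congr rfl fun j _ => ?_
    ring
  have hne : ∀ s : ℝ, (fun j => φ j - s * ψ j) ≠ 0 := by
    intro s h0
    apply hφ0
    refine hT (insert (b - 1) (insert r E0)) (hsub2 _ _ (by omega) (by omega))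
      (hins2 _ _ (by omega) (by omega) le_rfl (by omega) (by omega)) φ ?_
    intro i hi
    rw [Finset.mem_insert] at hi
    rcases hi with rfl | hi
    · have h1 := hlin s (b - 1)
      rw [h0, hψb] at h1
      have h2 : comb F (0 : Fin (r + 2 + d) → ℝ) (b - 1) = 0 := by
        unfold comb; simp
      rw [h2] at h1
      linarith
    · exact hφ i hi
  set t : ℕ → ℝ := fun i => comb F φ i / comb F ψ i with ht
  have htφ : ∀ i, r ≤ i → i < b - 1 → comb F φ i = t i * comb F ψ i := by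
    intro i h1 h2
    show comb F φ i = comb F φ i / comb F ψ i * comb F ψ i
    rw [div_mul_cancel₀ _ (hψne i h1 h2)]
  have hinj : ∀ i j, r ≤ i → i < b - 1 → r ≤ j → j < b - 1 → i ≠ j → t i ≠ t j := by
    intro i j h1 h2 h3 h4 h5 h6
    apply hne (t i)
    refine hT (insert i (insert j E0)) (hsub2 _ _ (by omega) (by omega))
      (hins2 _ _ h1 (by omega) h3 (by omega) h5) _ ?_
    intro l hl
    rw [Finset.mem_insert, Finset.mem_insert] at hl
    rw [hlin]
    rcases hl with rfl | rfl | hl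
    · rw [htφ _ h1 h2]; ring
    · rw [htφ _ h3 h4, h6]; ring
    · rw [hφE l hl, hψE l hl]; ring
  -- Ramsey
  obtain ⟨T', hT'sub, hT'c, hT'⟩ := hR (Ico r (b - 1)) (by rw [Nat.card_Ico]; omega)
    (fun x => t (x 0) < t (x 1))
  have hT'm : ∀ i ∈ T', r ≤ i ∧ i < b - 1 := fun i hi => Finset.mem_Ico.1 (hT'sub hi)
  have hpair : ∀ i i' : ℕ, i < i' → StrictMono (![i, i'] : Fin 2 → ℕ) := by
    intro i i' h
    rw [Fin.strictMono_iff_lt_succ]
    intro l
    have hl : l = 0 := Subsingleton.elim _ _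
    subst hl
    simpa using h
  have hmono : (∀ i ∈ T', ∀ i' ∈ T', i < i' → t i < t i') ∨
      (∀ i ∈ T', ∀ i' ∈ T', i < i' → t i' < t i) := by
    rcases hT' with h | h
    · left
      intro i hi i' hi' hii
      exact h ![i, i'] (hpair i i' hii) (by
        intro l; fin_cases l
        · exact hi
        · exact hi')
    · right
      intro i hi i' hi' hii
      have h1 := h ![i, i'] (hpair i i' hii) (by
        intro l; fin_cases l
        · exact hi
        · exact hi')
      have h2 : ¬ t i < t i' := h1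
      have h3 := hinj i i' (hT'm i hi).1 (hT'm i hi).2 (hT'm i' hi').1 (hT'm i' hi').2 (by omega)
      exact lt_of_le_of_ne (not_lt.1 h2) (Ne.symm h3)
  obtain ⟨x, hx, y, hy, z, hz, w, hwm, hxy, hyz, hzw, hcr⟩ :=
    cr_mono n1 t T' (le_of_eq hT'c.symm) hmono
  have hx' := hT'm x hx
  have hy' := hT'm y hy
  have hz' := hT'm z hz
  have hw' := hT'm w hwm
  -- the tuple
  let W : Fin (r + 2 + d + 2) → ℕ := fun l =>
    if l.1 < r then l.1 else if l.1 = r then x else if l.1 = r + 1 then y else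
      if l.1 = r + 2 then z else if l.1 = r + 3 then w else b + (l.1 - (r + 4))
  have hW : ∀ l : Fin (r + 2 + d + 2), W l = if l.1 < r then l.1 else if l.1 = r then x else
      if l.1 = r + 1 then y else
      if l.1 = r + 2 then z else if l.1 = r + 3 then w else b + (l.1 - (r + 4)) := fun l => rfl
  have hWmono : StrictMono W := by
    intro l l' hll
    have h1 : l.1 < l'.1 := hll
    rw [hW, hW]
    split_ifs <;> omega
  have hWlt : ∀ l, W l < b + d := by
    intro l
    have h1 := l.2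
    rw [hW]
    split_ifs <;> omega
  have hcon := hw W hWmono hWlt
  apply hcon
  intro p q hp hq hvan hpx hqw
  have hWx : W ⟨r, by omega⟩ = x := by
    rw [hW]; simp
  have hWy : W ⟨r + 1, by omega⟩ = y := by
    rw [hW]; simp
  have hWz : W ⟨r + 2, by omega⟩ = z := by
    rw [hW]; simp
  have hWw : W ⟨r + 3, by omega⟩ = w := by
    rw [hW]; simp
  rw [hWx] at hpx
  rw [hWw] at hqw
  rw [hWy, hWz]
  have hvan0 : ∀ i ∈ E0, comb F p i = 0 ∧ comb F q i = 0 := by
    intro i hi
    rw [hE0] at hi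
    rcases hi with hi | ⟨hi1, hi2⟩
    · have h1 := hvan ⟨i, by omega⟩ (Or.inl hi)
      have h2 : W ⟨i, by omega⟩ = i := by
        rw [hW]; exact if_pos hi
      rw [h2] at h1
      exact h1
    · have h1 := hvan ⟨r + 4 + (i - b), by omega⟩ (Or.inr (by show r + 3 < r + 4 + (i - b); omega))
      have h2 : W ⟨r + 4 + (i - b), by omega⟩ = i := by
        rw [hW]
        show (if r + 4 + (i - b) < r then r + 4 + (i - b) else if r + 4 + (i - b) = r then x else
          if r + 4 + (i - b) = r + 1 then y else if r + 4 + (i - b) = r + 2 then z else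
          if r + 4 + (i - b) = r + 3 then w else b + (r + 4 + (i - b) - (r + 4))) = i
        rw [if_neg (by omega), if_neg (by omega), if_neg (by omega), if_neg (by omega),
          if_neg (by omega)]
        omega
      rw [h2] at h1
      exact h1
  have hcomp : ∀ (x₀ : ℕ), r ≤ x₀ → x₀ < b - 1 → ∀ p' : Fin (r + 2 + d) → ℝ, p' ≠ 0 →
      (∀ i ∈ E0, comb F p' i = 0) → comb F p' x₀ = 0 → ∃ s : ℝ, s ≠ 0 ∧
      ∀ i, r ≤ i → i < b - 1 → comb F p' i = s * (comb F ψ i * (t i - t x₀)) := by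
    intro x₀ h1 h2 p' hp' hE hx0
    obtain ⟨s, hs, hps⟩ := unique_vanish (r + 2 + d) F (range (b + d)) hT
      (by rw [Finset.card_range]; omega) (insert x₀ E0) (hsub1 _ (by omega))
      (hins1 _ h1 (by omega)) (fun j => φ j - t x₀ * ψ j) p' (hne _) hp' (by
        intro i hi
        rw [Finset.mem_insert] at hi
        rw [hlin]
        rcases hi with rfl | hi
        · rw [htφ _ h1 h2]; ring
        · rw [hφE i hi, hψE i hi]; ring) (by
        intro i hi
        rw [Finset.mem_insert] at hi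
        rcases hi with rfl | hi
        · exact hx0
        · exact hE i hi)
    refine ⟨s, hs, fun i hi1 hi2 => ?_⟩
    have h3 : comb F p' i = s * comb F (fun j => φ j - t x₀ * ψ j) i := by
      rw [hps]
      unfold comb
      rw [Finset.mul_sum]
      refine Finset.sum_congr rfl fun j _ => ?_
      ring
    rw [h3, hlin, htφ i hi1 hi2]
    ring
  obtain ⟨s, hs, hps⟩ := hcomp x hx'.1 hx'.2 p hp (fun i hi => (hvan0 i hi).1) hpx
  obtain ⟨s', hs', hqs⟩ := hcomp w hw'.1 hw'.2 q hq (fun i hi => (hvan0 i hi).2) hqw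
  rw [hps z hz'.1 hz'.2, hps y hy'.1 hy'.2, hqs y hy'.1 hy'.2, hqs z hz'.1 hz'.2]
  have hψy := hψne y hy'.1 hy'.2
  have hψz := hψne z hz'.1 hz'.2
  have hyx : t y - t x ≠ 0 := sub_ne_zero.2 (hinj y x hy'.1 hy'.2 hx'.1 hx'.2 (by omega))
  have hzw' : t z - t w ≠ 0 := sub_ne_zero.2 (hinj z w hz'.1 hz'.2 hw'.1 hw'.2 (by omega))
  have e : (s * (comb F ψ z * (t z - t x))) / (s * (comb F ψ y * (t y - t x))) *
      ((s' * (comb F ψ y * (t y - t w))) / (s' * (comb F ψ z * (t z - t w)))) =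
      ((t z - t x) / (t y - t x)) * ((t y - t w) / (t z - t w)) := by
    field_simp
  rw [e]
  exact hK.trans hcr

theorem cr_true (m : ℕ) (K : ℝ) : ∃ n0 : ℕ, ∀ (F : Fin m → ℕ → ℝ) (T : Finset ℕ),
    NonDeg F T → n0 ≤ T.card → ∀ (r : ℕ) (hr : r + 3 < m + 2),
    ((∀ w : Fin (m + 2) → ℕ, StrictMono w → (∀ l, w l ∈ T) → CRge K F r hr w) ∨
     (∀ w : Fin (m + 2) → ℕ, StrictMono w → (∀ l, w l ∈ T) → ¬ CRge K F r hr w)) →
    (∀ w : Fin (m + 2) → ℕ, StrictMono w → (∀ l, w l ∈ T) → CRge K F r hr w) := by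
  obtain ⟨n1, hn1⟩ := exists_nat_ge K
  obtain ⟨C, hC⟩ := ramseyP 2
  obtain ⟨a, ha⟩ := hC Unit
  refine ⟨tow C (a * (2 * n1 + 6 + 1)) + m + 5, fun F T hT hTc r hr halt => ?_⟩
  rcases halt with h | h
  · exact h
  exfalso
  obtain ⟨d, rfl⟩ : ∃ d, m = r + 2 + d := ⟨m - (r + 2), by omega⟩
  obtain ⟨b, hb⟩ : ∃ b, T.card = b + d := ⟨T.card - d, by omega⟩
  let e := T.orderEmbOfFin hb
  let f : ℕ → ℕ := fun j => if hj : j < b + d then e ⟨j, hj⟩ else 0
  have hf : ∀ j (hj : j < b + d), f j = e ⟨j, hj⟩ := fun j hj => dif_pos hj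
  have hfm : ∀ j, j < b + d → f j ∈ T := by
    intro j hj
    rw [hf j hj]
    exact Finset.orderEmbOfFin_mem T hb _
  have hflt : ∀ i j, i < j → j < b + d → f i < f j := by
    intro i j hij hj
    rw [hf j hj, hf i (by omega)]
    exact e.strictMono (by exact hij)
  have hfinj : Set.InjOn f (range (b + d) : Set ℕ) := by
    intro i hi j hj hij
    rw [Finset.mem_coe, Finset.mem_range] at hi hj
    by_contra hne
    rcases Nat.lt_or_gt_of_ne hne with h1 | h1
    · exact absurd hij (hflt i j h1 hj).ne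
    · exact absurd hij (hflt j i h1 hi).ne'
  have hcomb : ∀ p i, comb (fun j i => F j (f i)) p i = comb F p (f i) := fun p i => rfl
  refine cr_true_core r d K n1 hn1 (tow C (a * (2 * n1 + 6 + 1))) ?_ (fun j i => F j (f i)) b ?_
    (by omega) hr ?_
  · intro S hS P
    obtain ⟨T', h1, h2, h3⟩ := ha (2 * n1 + 6) S hS (fun _ => P)
    exact ⟨T', h1, h2, h3 ()⟩
  · intro E hE hEc p hp
    refine hT (E.image f) ?_ ?_ p ?_
    · intro i hi
      obtain ⟨j, hj, rfl⟩ := Finset.mem_image.1 hi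
      exact hfm j (Finset.mem_range.1 (hE hj))
    · rw [Finset.card_image_of_injOn (hfinj.mono (Finset.coe_subset.2 hE)), hEc]
    · intro i hi
      obtain ⟨j, hj, rfl⟩ := Finset.mem_image.1 hi
      exact hp j hj
  · intro w hw hwlt hCR
    refine h (fun l => f (w l)) (fun l l' hll => hflt _ _ (hw hll) (hwlt l'))
      (fun l => hfm _ (hwlt l)) ?_
    intro p q hp hq hvan hpx hqw
    exact hCR p q hp hq hvan hpx hqw

end RC
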