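import Pool.Agent.Helper850.RC.Defs

set_option autoImplicit false

namespace RC
open Finset BigOperators


theorem csep_family : ∀ (s q : ℕ), ∃ a : ℕ,
    ∀ (K : ℝ), 1 ≤ K → ∀ (n : ℕ) (S : Finset ℕ) (U : Fin s → ℕ → ℝ) (c : Fin q → ℝ),
      (∀ j, ∀ i ∈ S, 0 < U j i) →
      (∀ j, (∀ i ∈ S, ∀ i' ∈ S, i < i' → 2 * K ^ 2 * U j i ≤ U j i') ∨
        (∀ i ∈ S, ∀ i' ∈ S, i < i' → 2 * K ^ 2 * U j i' ≤ U j i)) →
      a * (n + 1) ≤ S.card →
      ∃ T ⊆ S, T.card = n ∧ CSep K U c T := by
  classical
  intro s q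
  refine ⟨Fintype.card (Fin q × Fin s → Bool × Bool) * 2, ?_⟩
  intro K hK n S U c hU hg hS
  obtain ⟨φ, hφ⟩ : ∃ φ : ℕ → (Fin q × Fin s → Bool × Bool),
    ∀ i x, φ i x = (decide (K * |c x.1| ≤ U x.2 i), decide (K * U x.2 i ≤ |c x.1|)) :=
    ⟨fun i x => (decide (K * |c x.1| ≤ U x.2 i), decide (K * U x.2 i ≤ |c x.1|)), fun _ _ => rfl⟩
  obtain ⟨y, -, hy⟩ := Finset.exists_le_card_fiber_of_mul_le_card_of_maps_to
    (s := S) (t := (Finset.univ : Finset (Fin q × Fin s → Bool × Bool))) (f := φ) (n := 2 * (n + 1))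
    (fun i _ => Finset.mem_univ _) Finset.univ_nonempty
    (by rw [Finset.card_univ]; rw [← mul_assoc]; exact hS)
  obtain ⟨T, hT, hTc⟩ := Finset.exists_subset_card_eq (s := {x ∈ S | φ x = y}) (n := n) (by omega)
  refine ⟨T, fun i hi => (Finset.mem_filter.1 (hT hi)).1, hTc, ?_⟩
  intro j g
  by_cases h1 : (y (j, g)).1 = true
  · left
    intro i hi
    have h2 := (Finset.mem_filter.1 (hT hi)).2
    have h3 := hφ i (j, g)
    rw [h2] at h3
    rw [h3] at h1
    exact of_decide_eq_true h1
  · by_cases h1' : (y (j, g)).2 = true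
    · right
      intro i hi
      have h2 := (Finset.mem_filter.1 (hT hi)).2
      have h3 := hφ i (j, g)
      rw [h2] at h3
      rw [h3] at h1'
      exact of_decide_eq_true h1'
    · exfalso
      have key : ∀ i ∈ S, φ i = y → U g i < K * |c j| ∧ |c j| < K * U g i := by
        intro i hi h2
        have h3 := hφ i (j, g)
        rw [h2] at h3
        rw [h3] at h1 h1'
        simp only [decide_eq_true_eq, not_le] at h1 h1'
        exact ⟨h1, h1'⟩
      have key2 : ∀ i ∈ S, ∀ i' ∈ S, φ i = y → φ i' = y → U g i < K ^ 2 * U g i' := by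
        intro i hi i' hi' h2 h2'
        have e1 := (key i hi h2).1
        have e2 := (key i' hi' h2').2
        have e3 : K * |c j| ≤ K * (K * U g i') := mul_le_mul_of_nonneg_left e2.le (by linarith)
        calc U g i < K * |c j| := e1
          _ ≤ K * (K * U g i') := e3
          _ = K ^ 2 * U g i' := by ring
      obtain ⟨i, hi, i', hi', hne⟩ := Finset.one_lt_card.1 (show 1 < ({x ∈ S | φ x = y}).card by omega)
      have main : ∀ i ∈ S, ∀ i' ∈ S, φ i = y → φ i' = y → i < i' → False := by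
        intro i hi i' hi' h2 h2' hlt
        have a1 := key2 i hi i' hi' h2 h2'
        have a2 := key2 i' hi' i hi h2' h2
        have a3 := hU g i hi
        have a4 := hU g i' hi'
        have a5 : 0 < K ^ 2 := by positivity
        have a6 := mul_pos a5 a3
        have a7 := mul_pos a5 a4
        rcases hg g with h | h
        · have := h i hi i' hi' hlt
          linarith
        · have := h i hi i' hi' hlt
          linarith
      rw [Finset.mem_filter] at hi hi'
      rcases lt_or_gt_of_ne hne with h | h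
      · exact main i hi.1 i' hi'.1 hi.2 hi'.2 h
      · exact main i' hi'.1 i hi.1 hi'.2 hi.2 h

end RC
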