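import Pool.Agent.Helper850.RC.Defs

set_option autoImplicit false

namespace RC
open Finset BigOperators


theorem deg_all (m : ℕ) (F : Fin m → ℕ → ℝ) (T : Finset ℕ) (hm : m ≤ T.card)
    (h : ∀ E ⊆ T, E.card = m → ∃ p : Fin m → ℝ, p ≠ 0 ∧ ∀ i ∈ E, comb F p i = 0) :
    ∃ p : Fin m → ℝ, p ≠ 0 ∧ ∀ i ∈ T, comb F p i = 0 := by
  classical
  obtain ⟨b, hbt, hspan, hli⟩ := exists_linearIndependent ℝ
    ((fun i : ℕ => (fun j : Fin m => F j i)) '' (T : Set ℕ))
  have hfin : b.Finite := (T.finite_toSet.image _).subset hbt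
  have hcardb : hfin.toFinset.card ≤ m := by
    haveI : Fintype b := hfin.fintype
    have h1 := hli.fintype_card_le_finrank
    rw [Module.finrank_fin_fun] at h1
    have h2 : hfin.toFinset.card = Fintype.card b := by
      rw [← Set.toFinset_card]
      congr 1
      ext x
      simp
    rw [h2]
    exact h1
  have hch : ∀ v ∈ hfin.toFinset, ∃ i ∈ T, (fun j : Fin m => F j i) = v := by
    intro v hv
    have hv' : v ∈ b := hfin.mem_toFinset.mp hv
    obtain ⟨i, hi, hiv⟩ := hbt hv'
    exact ⟨i, hi, hiv⟩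
  choose! f hf1 hf2 using hch
  have hE'T : hfin.toFinset.image f ⊆ T := by
    intro i hi
    obtain ⟨v, hv, rfl⟩ := Finset.mem_image.mp hi
    exact hf1 v hv
  obtain ⟨E, hE'E, hET, hEc⟩ := Finset.exists_subsuperset_card_eq hE'T
    (Finset.card_image_le.trans hcardb) hm
  obtain ⟨p, hp, hpE⟩ := h E hET hEc
  refine ⟨p, hp, fun i hi => ?_⟩
  have hmem : (fun j : Fin m => F j i) ∈ Submodule.span ℝ b := by
    rw [hspan]
    exact Submodule.subset_span ⟨i, hi, rfl⟩
  have key : ∀ v ∈ Submodule.span ℝ b, ∑ j, p j * v j = 0 := by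
    intro v hv
    induction hv using Submodule.span_induction with
    | mem x hx =>
      have hx' : x ∈ hfin.toFinset := hfin.mem_toFinset.mpr hx
      have h3 := hpE (f x) (hE'E (Finset.mem_image_of_mem f hx'))
      rw [← hf2 x hx']
      exact h3
    | zero => simp
    | add x y _ _ hx hy =>
      simp only [Pi.add_apply, mul_add, Finset.sum_add_distrib, hx, hy, add_zero]
    | smul a x _ hx =>
      have : ∑ j, p j * (a • x) j = a * ∑ j, p j * x j := by
        rw [Finset.mul_sum]
        refine Finset.sum_congr rfl fun j _ => ?_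
        rw [Pi.smul_apply, smul_eq_mul]
        ring
      rw [this, hx, mul_zero]
  exact key _ hmem

end RC
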