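import Pool.Agent.Helper850.RC.Defs

set_option autoImplicit false

namespace RC
open Finset BigOperators


theorem dom_sum_est {k : ℕ} (K a : ℝ) (hK0 : 0 < K) (ha : 0 ≤ a) (v : Fin k → ℝ) (l₀ : Fin k)
    (hv : ∀ l, l ≠ l₀ → |v l| ≤ a / K) : |∑ l, v l - v l₀| ≤ k * (a / K) := by
  have h1 : ∑ l, v l - v l₀ = ∑ l ∈ univ.erase l₀, v l := by
    rw [← Finset.add_sum_erase univ v (mem_univ l₀)]
    ring
  rw [h1]
  refine (Finset.abs_sum_le_sum_abs _ _).trans ?_
  have h2 : ∑ l ∈ univ.erase l₀, |v l| ≤ ∑ _l ∈ univ.erase l₀, a / K :=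
    Finset.sum_le_sum fun l hl => hv l (Finset.ne_of_mem_erase hl)
  refine h2.trans ?_
  rw [Finset.sum_const, nsmul_eq_mul]
  apply mul_le_mul_of_nonneg_right _ (div_nonneg ha hK0.le)
  have h3 : (univ.erase l₀).card ≤ k := by
    refine (Finset.card_le_univ _).trans ?_
    simp
  exact_mod_cast h3

theorem dom_sum (k s : ℕ) (K Λ : ℝ) (hK : 2 * ((k : ℝ) + 1) ≤ K) (hΛ : 0 < Λ)
    (U : Fin s → ℕ → ℝ) (T : Finset ℕ) (hU : ∀ j, ∀ i ∈ T, Λ ≤ U j i) (hs : Sep K U T)
    (c : ℝ) (hc : ∀ g : Fin s, (∀ i ∈ T, K * |c| ≤ U g i) ∨ (∀ i ∈ T, K * U g i ≤ |c|))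
    (τ : Fin k → ℝ) (hτ : ∀ l, τ l = 0 ∨ τ l = 1 ∨ τ l = -1) (hτ0 : ∃ l, τ l ≠ 0)
    (j : Fin k → Fin s) :
    (∀ x : Fin k → ℕ, StrictMono x → (∀ l, x l ∈ T) →
      Λ / 2 ≤ c + ∑ l, τ l * U (j l) (x l)) ∨
    (∀ x : Fin k → ℕ, StrictMono x → (∀ l, x l ∈ T) →
      c + ∑ l, τ l * U (j l) (x l) ≤ -(Λ / 2)) := by
  classical
  by_cases hex : ∃ x0 : Fin k → ℕ, StrictMono x0 ∧ ∀ l, x0 l ∈ T
  swap
  · left
    intro x hx hxT
    exact absurd ⟨x, hx, hxT⟩ hex
  obtain ⟨x0, hx0, hx0T⟩ := hex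
  have hk0 : (0 : ℝ) ≤ k := Nat.cast_nonneg k
  have hK1 : 1 < K := by linarith
  have hK0 : 0 < K := by linarith
  obtain ⟨l1, hl1⟩ := hτ0
  obtain ⟨l₀, hl₀, hmax⟩ := Finset.exists_max_image (univ.filter (fun l => τ l ≠ 0))
    (fun l => U (j l) (x0 l)) ⟨l1, mem_filter.mpr ⟨mem_univ _, hl1⟩⟩
  have hτl₀ : τ l₀ ≠ 0 := (mem_filter.mp hl₀).2
  have hpos0 : ∀ l, 0 < U (j l) (x0 l) := fun l => lt_of_lt_of_le hΛ (hU _ _ (hx0T l))
  have hcontra : ∀ l, τ l ≠ 0 → ¬ K * U (j l₀) (x0 l₀) ≤ U (j l) (x0 l) := by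
    intro l hl h
    have h1 := hmax l (mem_filter.mpr ⟨mem_univ _, hl⟩)
    have h2 := hpos0 l₀
    nlinarith
  have hD : ∀ l, τ l ≠ 0 → l ≠ l₀ → ∀ x : Fin k → ℕ, StrictMono x → (∀ l, x l ∈ T) →
      K * U (j l) (x l) ≤ U (j l₀) (x l₀) := by
    intro l hl hne x hx hxT
    rcases lt_or_gt_of_ne hne with hlt | hlt
    · rcases hs (j l) (j l₀) with h | h
      · exact h _ (hxT l) _ (hxT l₀) (hx hlt)
      · exact absurd (h _ (hx0T l) _ (hx0T l₀) (hx0 hlt)) (hcontra l hl)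
    · rcases hs (j l₀) (j l) with h | h
      · exact absurd (h _ (hx0T l₀) _ (hx0T l) (hx0 hlt)) (hcontra l hl)
      · exact h _ (hxT l₀) _ (hxT l) (hx hlt)
  -- estimate of the other items
  have hest : ∀ x : Fin k → ℕ, StrictMono x → (∀ l, x l ∈ T) →
      |∑ l, τ l * U (j l) (x l) - τ l₀ * U (j l₀) (x l₀)| ≤ k * (U (j l₀) (x l₀) / K) := by
    intro x hx hxT
    have ha : 0 < U (j l₀) (x l₀) := lt_of_lt_of_le hΛ (hU _ _ (hxT l₀))
    apply dom_sum_est K _ hK0 ha.le (fun l => τ l * U (j l) (x l)) l₀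
    intro l hne
    by_cases hl : τ l = 0
    · rw [hl, zero_mul, abs_zero]
      exact div_nonneg ha.le hK0.le
    · have h1 := hD l hl hne x hx hxT
      have h2 : 0 < U (j l) (x l) := lt_of_lt_of_le hΛ (hU _ _ (hxT l))
      have h3 : |τ l * U (j l) (x l)| = U (j l) (x l) := by
        rw [abs_mul, abs_of_pos h2]
        rcases hτ l with h | h | h
        · exact absurd h hl
        · rw [h, abs_one, one_mul]
        · rw [h, abs_neg, abs_one, one_mul]
      rw [h3, le_div_iff₀ hK0, mul_comm]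
      exact h1
  have hhalf : ∀ a : ℝ, 0 ≤ a → (k : ℝ) * (a / K) + a / K ≤ a / 2 := by
    intro a ha
    have h1 : (k : ℝ) * (a / K) + a / K = a * ((k + 1) / K) := by ring
    have h2 : ((k : ℝ) + 1) / K ≤ 1 / 2 := by
      rw [div_le_div_iff₀ hK0 (by norm_num)]
      linarith
    rw [h1]
    have h3 := mul_le_mul_of_nonneg_left h2 ha
    linarith
  rcases hc (j l₀) with hcc | hcc
  · -- the item `l₀` dominates
    have hbase : ∀ x : Fin k → ℕ, StrictMono x → (∀ l, x l ∈ T) →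
        |c + ∑ l, τ l * U (j l) (x l) - τ l₀ * U (j l₀) (x l₀)| ≤ U (j l₀) (x l₀) / 2 := by
      intro x hx hxT
      have ha : 0 < U (j l₀) (x l₀) := lt_of_lt_of_le hΛ (hU _ _ (hxT l₀))
      have h1 := hest x hx hxT
      have h2 : |c| ≤ U (j l₀) (x l₀) / K := by
        rw [le_div_iff₀ hK0, mul_comm]
        exact hcc _ (hxT l₀)
      have h3 := hhalf _ ha.le
      have e : c + ∑ l, τ l * U (j l) (x l) - τ l₀ * U (j l₀) (x l₀)
          = c + (∑ l, τ l * U (j l) (x l) - τ l₀ * U (j l₀) (x l₀)) := by ring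
      rw [e]
      refine (abs_add_le _ _).trans ?_
      linarith
    rcases hτ l₀ with h | h | h
    · exact absurd h hτl₀
    · left
      intro x hx hxT
      have h1 := (abs_le.mp (hbase x hx hxT)).1
      have h2 := hU (j l₀) _ (hxT l₀)
      rw [h] at h1
      linarith
    · right
      intro x hx hxT
      have h1 := (abs_le.mp (hbase x hx hxT)).2
      have h2 := hU (j l₀) _ (hxT l₀)
      rw [h] at h1
      linarith
  · -- the constant dominates
    have hsum : ∀ x : Fin k → ℕ, StrictMono x → (∀ l, x l ∈ T) →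
        |∑ l, τ l * U (j l) (x l)| ≤ |c| / 2 ∧ Λ ≤ |c| := by
      intro x hx hxT
      have ha : 0 < U (j l₀) (x l₀) := lt_of_lt_of_le hΛ (hU _ _ (hxT l₀))
      have h1 := hest x hx hxT
      have h2 := hcc _ (hxT l₀)
      have h3 := hU (j l₀) _ (hxT l₀)
      have h4 : U (j l₀) (x l₀) ≤ |c| / K := by
        rw [le_div_iff₀ hK0, mul_comm]
        exact h2
      have h5 : |τ l₀ * U (j l₀) (x l₀)| ≤ |c| / K := by
        rw [abs_mul, abs_of_pos ha]
        rcases hτ l₀ with h | h | h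
        · exact absurd h hτl₀
        · rw [h, abs_one, one_mul]
          exact h4
        · rw [h, abs_neg, abs_one, one_mul]
          exact h4
      have h6 : U (j l₀) (x l₀) / K ≤ |c| / K := by
        apply div_le_div_of_nonneg_right _ hK0.le
        nlinarith
      have h7 := hhalf |c| (abs_nonneg c)
      have h8 : (k : ℝ) * (U (j l₀) (x l₀) / K) ≤ k * (|c| / K) :=
        mul_le_mul_of_nonneg_left h6 hk0
      constructor
      · have e : ∑ l, τ l * U (j l) (x l)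
            = (∑ l, τ l * U (j l) (x l) - τ l₀ * U (j l₀) (x l₀)) + τ l₀ * U (j l₀) (x l₀) := by
          ring
        rw [e]
        refine (abs_add_le _ _).trans ?_
        linarith
      · nlinarith
    rcases le_total 0 c with h | h
    · left
      intro x hx hxT
      obtain ⟨h1, h2⟩ := hsum x hx hxT
      rw [abs_of_nonneg h] at h1 h2
      have h3 := (abs_le.mp h1).1
      linarith
    · right
      intro x hx hxT
      obtain ⟨h1, h2⟩ := hsum x hx hxT
      rw [abs_of_nonpos h] at h1 h2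
      have h3 := (abs_le.mp h1).2
      linarith

end RC
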