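import Pool.Agent.Helper850.RC.Defs

set_option autoImplicit false

namespace RC
open Finset BigOperators


theorem exp_or_contr (K : ℝ) (hK : 1 ≤ K) (g : ℕ → ℝ) (T : Finset ℕ)
    (hg : ∀ i ∈ T, ∀ i' ∈ T, i < i' → g i < g i')
    (h1 : ∀ i ∈ T, ∀ i' ∈ T, ∀ i'' ∈ T, i < i' → i' < i'' → ¬ K * (g i' - g i) ≤ g i'' - g i')
    (h2 : ∀ i ∈ T, ∀ i' ∈ T, ∀ i'' ∈ T, i < i' → i' < i'' → ¬ K * (g i'' - g i') ≤ g i' - g i) :
    (T.card : ℝ) ≤ K ^ 2 + 3 := by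
  by_contra hcon
  push Not at hcon
  obtain ⟨n, hn⟩ : ∃ n, n = T.card := ⟨_, rfl⟩
  rw [← hn] at hcon
  have hn4 : 4 < n := by
    have : (4 : ℝ) < n := by nlinarith
    exact_mod_cast this
  let e := T.orderEmbOfFin hn.symm
  have he : ∀ i, e i ∈ T := fun i => T.orderEmbOfFin_mem hn.symm i
  have hlt : ∀ i j : Fin n, i < j → e i < e j := fun i j hij => e.strictMono hij
  have hd : 0 < g (e ⟨1, by omega⟩) - g (e ⟨0, by omega⟩) := by
    have := hg _ (he ⟨0, by omega⟩) _ (he ⟨1, by omega⟩) (hlt _ _ (by rw [Fin.lt_def]; norm_num))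
    linarith
  have key : ∀ j : ℕ, ∀ hj : j + 1 < n,
      (j : ℝ) * (g (e ⟨1, by omega⟩) - g (e ⟨0, by omega⟩)) ≤
        K * (g (e ⟨j + 1, hj⟩) - g (e ⟨1, by omega⟩)) := by
    intro j
    induction j with
    | zero => intro hj; simp
    | succ j ih =>
      intro hj
      have h3 := ih (by omega)
      have h4 := h2 _ (he ⟨0, by omega⟩) _ (he ⟨j + 1, by omega⟩) _ (he ⟨j + 1 + 1, hj⟩)
        (hlt _ _ (by rw [Fin.lt_def]; simp)) (hlt _ _ (by rw [Fin.lt_def]; simp))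
      push Not at h4
      have h5 : g (e ⟨1, by omega⟩) ≤ g (e ⟨j + 1, by omega⟩) := by
        rcases Nat.eq_zero_or_pos j with rfl | hj0
        · exact le_rfl
        · exact (hg _ (he _) _ (he _) (hlt _ _ (by rw [Fin.lt_def]; simp [hj0]))).le
      push_cast
      nlinarith
  have h3 := key (n - 2) (by omega)
  have h4 := h1 _ (he ⟨0, by omega⟩) _ (he ⟨1, by omega⟩) _ (he ⟨n - 2 + 1, by omega⟩)
    (hlt _ _ (by rw [Fin.lt_def]; norm_num)) (hlt _ _ (by rw [Fin.lt_def]; simp; omega))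
  push Not at h4
  have h5 : ((n - 2 : ℕ) : ℝ) = (n : ℝ) - 2 := by
    rw [Nat.cast_sub (by omega)]; norm_num
  rw [h5] at h3
  have h6 : K * (g (e ⟨n - 2 + 1, by omega⟩) - g (e ⟨1, by omega⟩)) ≤
      K * (K * (g (e ⟨1, by omega⟩) - g (e ⟨0, by omega⟩))) :=
    mul_le_mul_of_nonneg_left h4.le (by linarith)
  have h7 : ((n : ℝ) - 2 - K ^ 2) * (g (e ⟨1, by omega⟩) - g (e ⟨0, by omega⟩)) ≤ 0 := by
    nlinarith
  have h8 : 0 < ((n : ℝ) - 2 - K ^ 2) * (g (e ⟨1, by omega⟩) - g (e ⟨0, by omega⟩)) :=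
    mul_pos (by linarith) hd
  linarith

end RC
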