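import Pool.Agent.Helper850.RC.Defs
import Pool.Agent.Helper850.RC.P_tow_mono
import Pool.Agent.Helper850.RC.P_ramseyP
import Pool.Agent.Helper850.RC.P_exp_or_contr

set_option autoImplicit false

namespace RC
open Finset BigOperators


theorem exp_contr_family : ∃ C : ℕ, ∀ (s : ℕ) (K : ℝ), 1 ≤ K → ∃ a : ℕ,
    ∀ (n : ℕ) (S : Finset ℕ) (g : Fin s → ℕ → ℝ),
      (∀ j, ∀ i ∈ S, ∀ i' ∈ S, i < i' → g j i < g j i') →
      tow C (a * (n + 1)) ≤ S.card →
      ∃ T ⊆ S, T.card = n ∧ ∀ j, Expd K (g j) T ∨ Contr K (g j) T := by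
  obtain ⟨C, hC⟩ := ramseyP 3
  refine ⟨C, ?_⟩
  intro s K hK
  obtain ⟨a, ha⟩ := hC (Fin s × Bool)
  refine ⟨a * (⌈K ^ 2⌉₊ + 7), ?_⟩
  intro n S g hg hS
  have hN : tow C (a * ((n + ⌈K ^ 2⌉₊ + 5) + 1)) ≤ S.card := by
    refine le_trans (tow_mono C _ _ ?_) hS
    rw [mul_assoc]
    apply Nat.mul_le_mul_left
    nlinarith [Nat.zero_le (⌈K ^ 2⌉₊ * n)]
  obtain ⟨T, hTS, hTc, hT⟩ := ha (n + ⌈K ^ 2⌉₊ + 5) S hN
    (fun j x => if j.2 = true then
      K * (g j.1 (x 1) - g j.1 (x 0)) ≤ g j.1 (x 2) - g j.1 (x 1)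
      else K * (g j.1 (x 2) - g j.1 (x 1)) ≤ g j.1 (x 1) - g j.1 (x 0))
  have htri : ∀ i i' i'' : ℕ, i ∈ T → i' ∈ T → i'' ∈ T → i < i' → i' < i'' →
      StrictMono (![i, i', i''] : Fin 3 → ℕ) ∧ ∀ l, (![i, i', i''] : Fin 3 → ℕ) l ∈ T := by
    intro i i' i'' h1 h2 h3 h12 h23
    constructor
    · rw [Fin.strictMono_iff_lt_succ]
      intro l
      fin_cases l
      · exact h12
      · exact h23
    · intro l
      fin_cases l
      · exact h1
      · exact h2
      · exact h3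
  obtain ⟨T', hT'T, hT'c⟩ := Finset.exists_subset_card_eq (s := T) (n := n) (by rw [hTc]; omega)
  refine ⟨T', hT'T.trans hTS, hT'c, ?_⟩
  intro j
  rcases hT (j, true) with h1 | h1
  · left
    intro i hi i' hi' i'' hi'' h12 h23
    obtain ⟨e1, e2⟩ := htri i i' i'' (hT'T hi) (hT'T hi') (hT'T hi'') h12 h23
    have h3 := h1 _ e1 e2
    rw [if_pos rfl] at h3
    exact h3
  · rcases hT (j, false) with h2 | h2
    · right
      intro i hi i' hi' i'' hi'' h12 h23
      obtain ⟨e1, e2⟩ := htri i i' i'' (hT'T hi) (hT'T hi') (hT'T hi'') h12 h23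
      have h3 := h2 _ e1 e2
      rw [if_neg (by simp)] at h3
      exact h3
    · exfalso
      have h4 := exp_or_contr K hK (g j) T
        (fun i hi i' hi' h => hg j i (hTS hi) i' (hTS hi') h)
        (by
          intro i hi i' hi' i'' hi'' h12 h23 hc
          obtain ⟨e1, e2⟩ := htri i i' i'' hi hi' hi'' h12 h23
          apply h1 _ e1 e2
          rw [if_pos rfl]
          exact hc)
        (by
          intro i hi i' hi' i'' hi'' h12 h23 hc
          obtain ⟨e1, e2⟩ := htri i i' i'' hi hi' hi'' h12 h23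
          apply h2 _ e1 e2
          rw [if_neg (by simp)]
          exact hc)
      rw [hTc] at h4
      push_cast at h4
      have h5 := Nat.le_ceil (K ^ 2)
      have h6 : (0 : ℝ) ≤ n := Nat.cast_nonneg n
      linarith

end RC
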