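import Pool.Agent.Helper850.RC.Defs
import Pool.Agent.Helper850.RC.P_exists_vanish
import Pool.Agent.Helper850.RC.P_unique_vanish
import Pool.Agent.Helper850.RC.P_vanish_ne

set_option autoImplicit false

namespace RC
open Finset BigOperators


noncomputable def flag_e (T : Finset ℕ) (l : ℕ) : ℕ :=
  if h : l < T.card then T.orderEmbOfFin rfl ⟨l, h⟩ else 0

theorem flag_e_mem (T : Finset ℕ) {l : ℕ} (h : l < T.card) : flag_e T l ∈ T := by
  unfold flag_e
  rw [dif_pos h]
  exact Finset.orderEmbOfFin_mem T rfl _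

theorem flag_e_lt (T : Finset ℕ) {l l' : ℕ} (h : l < l') (h' : l' < T.card) :
    flag_e T l < flag_e T l' := by
  unfold flag_e
  rw [dif_pos (h.trans h'), dif_pos h']
  exact (T.orderEmbOfFin rfl).strictMono h

theorem flag_e_inj (T : Finset ℕ) {l l' : ℕ} (h : l < T.card) (h' : l' < T.card)
    (he : flag_e T l = flag_e T l') : l = l' := by
  rcases lt_trichotomy l l' with h1 | h1 | h1
  · exact absurd he (flag_e_lt T h1 h').ne
  · exact h1
  · exact absurd he (flag_e_lt T h1 h).ne'

/-- the vanishing set -/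
noncomputable def flag_Z (T : Finset ℕ) (m r : ℕ) : Finset ℕ :=
  (Finset.range r ∪ Finset.Ico (T.card - (m - 1 - r)) T.card).image (flag_e T)

theorem flag_Z_sub (T : Finset ℕ) (m r : ℕ) (hr : r < m) (hcard : 2 * m ≤ T.card) :
    flag_Z T m r ⊆ T := by
  intro x hx
  unfold flag_Z at hx
  rw [Finset.mem_image] at hx
  obtain ⟨l, hl, rfl⟩ := hx
  rw [Finset.mem_union, Finset.mem_range, Finset.mem_Ico] at hl
  exact flag_e_mem T (by omega)

theorem flag_Z_card (T : Finset ℕ) (m r : ℕ) (hr : r < m) (hcard : 2 * m ≤ T.card) :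
    (flag_Z T m r).card + 1 = m := by
  unfold flag_Z
  rw [Finset.card_image_of_injOn, Finset.card_union_of_disjoint, Finset.card_range, Nat.card_Ico]
  · omega
  · rw [Finset.disjoint_left]
    intro l hl hl'
    rw [Finset.mem_range] at hl
    rw [Finset.mem_Ico] at hl'
    omega
  · intro l hl l' hl' he
    rw [Finset.mem_coe, Finset.mem_union, Finset.mem_range, Finset.mem_Ico] at hl hl'
    exact flag_e_inj T (by omega) (by omega) he

theorem flag_Z_mem (T : Finset ℕ) (m r l : ℕ) (h : l < r ∨ (T.card - (m - 1 - r) ≤ l ∧ l < T.card)) :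
    flag_e T l ∈ flag_Z T m r := by
  unfold flag_Z
  rw [Finset.mem_image]
  refine ⟨l, ?_, rfl⟩
  rw [Finset.mem_union, Finset.mem_range, Finset.mem_Ico]
  exact h

theorem flag_Z_notMem (T : Finset ℕ) (m r l : ℕ) (hr : r < m) (hcard : 2 * m ≤ T.card)
    (hl : r ≤ l) (hl2 : l < T.card - (m - 1 - r)) : flag_e T l ∉ flag_Z T m r := by
  intro h
  unfold flag_Z at h
  rw [Finset.mem_image] at h
  obtain ⟨l', hl', he⟩ := h
  rw [Finset.mem_union, Finset.mem_range, Finset.mem_Ico] at hl'
  have := flag_e_inj T (by omega) (by omega) he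
  omega

/-- the tuple for the cross ratio -/
noncomputable def flag_W (T : Finset ℕ) (m r i i' : ℕ) (l : Fin (m + 2)) : ℕ :=
  if l.val ≤ r then flag_e T l.val else if l.val = r + 1 then i else if l.val = r + 2 then i'
  else flag_e T (T.card - (m + 2) + l.val)

theorem flag_step (m : ℕ) (K : ℝ) (F : Fin m → ℕ → ℝ) (T : Finset ℕ)
    (hcard : 2 * m ≤ T.card)
    (hCR : ∀ (r : ℕ) (hr : r + 3 < m + 2) (w : Fin (m + 2) → ℕ), StrictMono w →
      (∀ l, w l ∈ T) → CRge K F r hr w) (p : ℕ → Fin m → ℝ)
    (hp0 : ∀ r < m, p r ≠ 0) (hpZ : ∀ r < m, ∀ i ∈ flag_Z T m r, comb F (p r) i = 0)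
    (r : ℕ) (hr : r + 1 < m) (a a' : ℕ) (ha : m ≤ a) (haa : a < a') (ha' : a' < T.card - m) :
    K ≤ (comb F (p (r + 1)) (flag_e T a') / comb F (p (r + 1)) (flag_e T a)) *
      (comb F (p r) (flag_e T a) / comb F (p r) (flag_e T a')) := by
  set i := flag_e T a with hi
  set i' := flag_e T a' with hi'
  have hW1 : ∀ l : Fin (m + 2), l.val ≤ r → flag_W T m r i i' l = flag_e T l.val := by
    intro l hl
    unfold flag_W
    rw [if_pos hl]
  have hW2 : ∀ l : Fin (m + 2), l.val = r + 1 → flag_W T m r i i' l = i := by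
    intro l hl
    unfold flag_W
    rw [if_neg (by omega), if_pos hl]
  have hW3 : ∀ l : Fin (m + 2), l.val = r + 2 → flag_W T m r i i' l = i' := by
    intro l hl
    unfold flag_W
    rw [if_neg (by omega), if_neg (by omega), if_pos hl]
  have hW4 : ∀ l : Fin (m + 2), r + 3 ≤ l.val →
      flag_W T m r i i' l = flag_e T (T.card - (m + 2) + l.val) := by
    intro l hl
    unfold flag_W
    rw [if_neg (by omega), if_neg (by omega), if_neg (by omega)]
  -- index form
  let idx : Fin (m + 2) → ℕ := fun l => if l.val ≤ r then l.val else if l.val = r + 1 then a else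
    if l.val = r + 2 then a' else T.card - (m + 2) + l.val
  have hWidx : ∀ l, flag_W T m r i i' l = flag_e T (idx l) := by
    intro l
    show flag_W T m r i i' l = flag_e T (if l.val ≤ r then l.val else if l.val = r + 1 then a else
      if l.val = r + 2 then a' else T.card - (m + 2) + l.val)
    unfold flag_W
    split_ifs <;> rfl
  have hidx : ∀ l, idx l < T.card := by
    intro l
    have := l.isLt
    show (if l.val ≤ r then l.val else if l.val = r + 1 then a else
      if l.val = r + 2 then a' else T.card - (m + 2) + l.val) < T.card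
    split_ifs <;> omega
  have hidxm : ∀ l l' : Fin (m + 2), l < l' → idx l < idx l' := by
    intro l l' hll
    have h1 := l.isLt
    have h2 := l'.isLt
    have h3 : l.val < l'.val := hll
    show (if l.val ≤ r then l.val else if l.val = r + 1 then a else
      if l.val = r + 2 then a' else T.card - (m + 2) + l.val) <
      (if l'.val ≤ r then l'.val else if l'.val = r + 1 then a else
      if l'.val = r + 2 then a' else T.card - (m + 2) + l'.val)
    split_ifs <;> omega
  have hmono : StrictMono (flag_W T m r i i') := by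
    intro l l' hll
    rw [hWidx, hWidx]
    exact flag_e_lt T (hidxm l l' hll) (hidx l')
  have hmem : ∀ l, flag_W T m r i i' l ∈ T := by
    intro l
    rw [hWidx]
    exact flag_e_mem T (hidx l)
  have key := hCR r (by omega) (flag_W T m r i i') hmono hmem (p (r + 1)) (p r)
    (hp0 _ hr) (hp0 _ (by omega)) ?_ ?_ ?_
  · rw [hW3 ⟨r + 2, by omega⟩ rfl, hW2 ⟨r + 1, by omega⟩ rfl] at key
    exact key
  · intro l hl
    have h1 := l.isLt
    rcases hl with hl | hl
    · rw [hW1 l (by omega)]
      exact ⟨hpZ _ hr _ (flag_Z_mem T m (r + 1) _ (Or.inl (by omega))),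
        hpZ _ (by omega) _ (flag_Z_mem T m r _ (Or.inl hl))⟩
    · rw [hW4 l (by omega)]
      exact ⟨hpZ _ hr _ (flag_Z_mem T m (r + 1) _ (Or.inr (by omega))),
        hpZ _ (by omega) _ (flag_Z_mem T m r _ (Or.inr (by omega)))⟩
  · rw [hW1 ⟨r, by omega⟩ le_rfl]
    exact hpZ _ hr _ (flag_Z_mem T m (r + 1) _ (Or.inl (Nat.lt_succ_self r)))
  · rw [hW4 ⟨r + 3, by omega⟩ le_rfl]
    exact hpZ _ (by omega) _ (flag_Z_mem T m r _ (Or.inr (by
      show T.card - (m - 1 - r) ≤ T.card - (m + 2) + (r + 3) ∧ T.card - (m + 2) + (r + 3) < T.card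
      omega)))

theorem flag_comb_sum (m : ℕ) (F : Fin m → ℕ → ℝ) (p : Fin m → Fin m → ℝ) (c : Fin m → ℝ)
    (i : ℕ) : comb F (∑ r, c r • p r) i = ∑ r, c r * comb F (p r) i := by
  unfold comb
  simp only [Finset.sum_apply, Pi.smul_apply, smul_eq_mul, Finset.sum_mul, Finset.mul_sum]
  rw [Finset.sum_comm]
  exact Finset.sum_congr rfl fun r _ => Finset.sum_congr rfl fun j _ => by ring

theorem flag (m : ℕ) (hm : 1 ≤ m) (K : ℝ) (hK : 1 ≤ K) (F : Fin m → ℕ → ℝ) (T : Finset ℕ)
    (hT : NonDeg F T) (hcard : 2 * m ≤ T.card)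
    (hCR : ∀ (r : ℕ) (hr : r + 3 < m + 2) (w : Fin (m + 2) → ℕ), StrictMono w →
      (∀ l, w l ∈ T) → CRge K F r hr w) :
    ∃ M ⊆ T, M.card + 2 * m = T.card ∧ ∃ p : Fin m → Fin m → ℝ,
      Grow K (fun r => comb F (p r)) M ∧ LinearIndependent ℝ p := by
  have hex : ∀ r : ℕ, ∃ p : Fin m → ℝ, r < m → (p ≠ 0 ∧ ∀ i ∈ flag_Z T m r, comb F p i = 0) := by
    intro r
    by_cases hr : r < m
    · obtain ⟨p, hp⟩ := exists_vanish m F (flag_Z T m r) (flag_Z_card T m r hr hcard).le
      exact ⟨p, fun _ => hp⟩
    · exact ⟨0, fun h => absurd h hr⟩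
  choose p hp using hex
  have hp0 : ∀ r < m, p r ≠ 0 := fun r hr => (hp r hr).1
  have hpZ : ∀ r < m, ∀ i ∈ flag_Z T m r, comb F (p r) i = 0 := fun r hr => (hp r hr).2
  have hne : ∀ r < m, ∀ l, r ≤ l → l < T.card - (m - 1 - r) → comb F (p r) (flag_e T l) ≠ 0 := by
    intro r hr l h1 h2
    exact vanish_ne m F T hT (flag_Z T m r) (flag_Z_sub T m r hr hcard) (flag_Z_card T m r hr hcard)
      (p r) (hp0 r hr) (hpZ r hr) _ (flag_e_mem T (by omega)) (flag_Z_notMem T m r l hr hcard h1 h2)
  refine ⟨(Finset.Ico m (T.card - m)).image (flag_e T), ?_, ?_, fun r => p r.val, ?_, ?_⟩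
  · intro x hx
    rw [Finset.mem_image] at hx
    obtain ⟨l, hl, rfl⟩ := hx
    rw [Finset.mem_Ico] at hl
    exact flag_e_mem T (by omega)
  · rw [Finset.card_image_of_injOn, Nat.card_Ico]
    · omega
    · intro l hl l' hl' he
      rw [Finset.mem_coe, Finset.mem_Ico] at hl hl'
      exact flag_e_inj T (by omega) (by omega) he
  · constructor
    · intro r x hx
      rw [Finset.mem_image] at hx
      obtain ⟨l, hl, rfl⟩ := hx
      rw [Finset.mem_Ico] at hl
      have := r.isLt
      exact hne r.val r.isLt l (by omega) (by omega)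
    · intro q₁ q₂ hq x hx x' hx' hxx
      rw [Finset.mem_image] at hx hx'
      obtain ⟨a, ha, rfl⟩ := hx
      obtain ⟨a', ha', rfl⟩ := hx'
      rw [Finset.mem_Ico] at ha ha'
      have haa : a < a' := by
        rcases lt_trichotomy a a' with h1 | h1 | h1
        · exact h1
        · rw [h1] at hxx
          exact absurd hxx (lt_irrefl _)
        · exact absurd hxx (flag_e_lt T h1 (by omega)).not_gt
      have hind : ∀ k : ℕ, q₁.val + k + 1 < m →
          K ≤ (comb F (p (q₁.val + k + 1)) (flag_e T a') / comb F (p (q₁.val + k + 1)) (flag_e T a)) *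
            (comb F (p q₁.val) (flag_e T a) / comb F (p q₁.val) (flag_e T a')) := by
        intro k
        induction k with
        | zero =>
          intro hk
          exact flag_step m K F T hcard hCR p hp0 hpZ q₁.val hk a a' ha.1 haa ha'.2
        | succ k ih =>
          intro hk
          have h1 := ih (by omega)
          have h2 := flag_step m K F T hcard hCR p hp0 hpZ (q₁.val + k + 1) (by omega) a a'
            ha.1 haa ha'.2
          have hn1 := hne (q₁.val + k + 1) (by omega) a (by omega) (by omega)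
          have hn2 := hne (q₁.val + k + 1) (by omega) a' (by omega) (by omega)
          have e : q₁.val + (k + 1) + 1 = q₁.val + k + 1 + 1 := by omega
          rw [e]
          generalize comb F (p (q₁.val + k + 1)) (flag_e T a) = x at *
          generalize comb F (p (q₁.val + k + 1)) (flag_e T a') = y at *
          generalize comb F (p (q₁.val + k + 1 + 1)) (flag_e T a) = u at *
          generalize comb F (p (q₁.val + k + 1 + 1)) (flag_e T a') = v at *
          generalize comb F (p q₁.val) (flag_e T a) = s at *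
          generalize comb F (p q₁.val) (flag_e T a') = t at *
          have h3 : v / u * (s / t) = (v / u * (x / y)) * (y / x * (s / t)) := by
            have h4 : x / y * (y / x) = 1 := by field_simp
            calc v / u * (s / t) = v / u * 1 * (s / t) := by ring
              _ = v / u * (x / y * (y / x)) * (s / t) := by rw [h4]
              _ = _ := by ring
          rw [h3]
          have hK0 : 0 ≤ K := by linarith
          calc K ≤ K * K := le_mul_of_one_le_left hK0 hK
            _ ≤ (v / u * (x / y)) * (y / x * (s / t)) := mul_le_mul h2 h1 hK0 (hK0.trans h2)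
      have hlt : q₁.val < q₂.val := hq
      have h5 := hind (q₂.val - q₁.val - 1) (by have := q₂.isLt; omega)
      have e : q₁.val + (q₂.val - q₁.val - 1) + 1 = q₂.val := by omega
      rw [e] at h5
      exact h5
  · rw [Fintype.linearIndependent_iff]
    intro c hc
    have hev : ∀ i, ∑ r, c r * comb F (p (r : Fin m).val) i = 0 := by
      intro i
      rw [← flag_comb_sum m F (fun r : Fin m => p r.val) c i, hc]
      unfold comb
      simp
    have hstrong : ∀ s : ℕ, ∀ hs : s < m, c ⟨s, hs⟩ = 0 := by
      intro s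
      induction s using Nat.strong_induction_on with
      | _ s ih =>
        intro hs
        have h1 := hev (flag_e T s)
        rw [Finset.sum_eq_single (⟨s, hs⟩ : Fin m)] at h1
        · exact (mul_eq_zero.1 h1).resolve_right (hne s hs s le_rfl (by omega))
        · intro r _ hrs
          rcases lt_trichotomy r.val s with h2 | h2 | h2
          · have h3 := ih r.val h2 r.isLt
            have h4 : c r = 0 := h3
            rw [h4, zero_mul]
          · exact absurd (Fin.ext h2) hrs
          · rw [hpZ r.val r.isLt _ (flag_Z_mem T m r.val s (Or.inl h2)), mul_zero]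
        · exact fun h => absurd (Finset.mem_univ _) h
    exact fun r => hstrong r.val r.isLt

end RC
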