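import Pool.Agent.Helper850.RC.Defs

set_option autoImplicit false

namespace RC
open Finset BigOperators


theorem rank_red (m k : ℕ) (F : Fin (m + 1) → ℕ → ℝ) (c : (Fin k → Fin (m + 1)) → ℝ)
    (T : Finset ℕ) (p : Fin (m + 1) → ℝ) (hp : p ≠ 0) (h : ∀ i ∈ T, comb F p i = 0) :
    ∃ (F' : Fin m → ℕ → ℝ) (c' : (Fin k → Fin m) → ℝ),
      ∀ x : Fin k → ℕ, (∀ l, x l ∈ T) → kval F c x = kval F' c' x := by
  classical
  obtain ⟨j0, hj0⟩ : ∃ j0, p j0 ≠ 0 := by
    by_contra hcon
    push Not at hcon
    exact hp (funext hcon)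
  let A : Fin (m + 1) → Fin m → ℝ := fun j j' =>
    if j = j0 then -(p (j0.succAbove j') / p j0) else if j = j0.succAbove j' then 1 else 0
  have hA : ∀ i ∈ T, ∀ j, F j i = ∑ j', A j j' * F (j0.succAbove j') i := by
    intro i hi j
    by_cases hj : j = j0
    · subst hj
      have h1 := h i hi
      unfold comb at h1
      rw [Fin.sum_univ_succAbove _ j] at h1
      have h2 : ∑ j', A j j' * F (j.succAbove j') i
          = - (∑ j', p (j.succAbove j') * F (j.succAbove j') i) / p j := by
        rw [← Finset.sum_neg_distrib, Finset.sum_div]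
        refine Finset.sum_congr rfl fun j' _ => ?_
        simp only [A, if_true]
        ring
      rw [h2]
      field_simp
      linarith
    · obtain ⟨j'', rfl⟩ := Fin.exists_succAbove_eq hj
      rw [Finset.sum_eq_single j'']
      · simp [A, hj]
      · intro b _ hb
        have : j0.succAbove j'' ≠ j0.succAbove b := fun he => hb ((Fin.succAbove_right_injective he).symm)
        simp [A, hj, this]
      · intro hn; exact absurd (Finset.mem_univ _) hn
  refine ⟨fun j' i => F (j0.succAbove j') i, fun J' => ∑ J, c J * ∏ l, A (J l) (J' l), ?_⟩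
  intro x hx
  unfold kval
  have h1 : ∀ J : Fin k → Fin (m + 1), ∏ l, F (J l) (x l)
      = ∑ J' : Fin k → Fin m, (∏ l, A (J l) (J' l)) * ∏ l, F (j0.succAbove (J' l)) (x l) := by
    intro J
    have : ∀ l, F (J l) (x l) = ∑ j', A (J l) j' * F (j0.succAbove j') (x l) :=
      fun l => hA (x l) (hx l) (J l)
    rw [Finset.prod_congr rfl (fun l _ => this l), Finset.prod_univ_sum, Fintype.piFinset_univ]
    refine Finset.sum_congr rfl fun J' _ => ?_
    rw [Finset.prod_mul_distrib]
  rw [Finset.sum_congr rfl (fun J _ => by rw [h1 J])]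
  simp only [Finset.mul_sum, Finset.sum_mul]
  rw [Finset.sum_comm]
  refine Finset.sum_congr rfl fun J' _ => Finset.sum_congr rfl fun J _ => ?_
  ring

end RC
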