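import Pool.Agent.Helper850.RC.Defs
import Pool.Agent.Helper850.RC.P_tow_mono
import Pool.Agent.Helper850.RC.P_ramseyP

set_option autoImplicit false

namespace RC
open Finset BigOperators


theorem sep_family : ∃ C : ℕ, ∀ (s : ℕ), ∃ a : ℕ,
    ∀ (K : ℝ), 1 ≤ K → ∀ (n : ℕ) (S : Finset ℕ) (U : Fin s → ℕ → ℝ),
      (∀ j, ∀ i ∈ S, 0 < U j i) →
      (∀ j, (∀ i ∈ S, ∀ i' ∈ S, i < i' → K ^ 2 * U j i ≤ U j i') ∨
        (∀ i ∈ S, ∀ i' ∈ S, i < i' → K ^ 2 * U j i' ≤ U j i)) →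
      tow C (a * (n + 1)) ≤ S.card →
      ∃ T ⊆ S, T.card = n ∧ Sep K U T := by
  obtain ⟨C, hC⟩ := ramseyP 2
  refine ⟨C, fun s => ?_⟩
  obtain ⟨a, ha⟩ := hC (Fin s × Fin s × Bool)
  refine ⟨4 * a, fun K hK n S U hpos hmono hcard => ?_⟩
  have hle : tow C (a * ((n + 3) + 1)) ≤ S.card := by
    refine le_trans (tow_mono C _ _ ?_) hcard
    nlinarith [Nat.zero_le a, Nat.zero_le (a * n)]
  obtain ⟨T0, hT0S, hT0card, hT0⟩ := ha (n + 3) S hle
    (fun j x => if j.2.2 = true then K * U j.1 (x 0) ≤ U j.2.1 (x 1)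
      else K * U j.2.1 (x 1) ≤ U j.1 (x 0))
  obtain ⟨T, hTT0, hTcard⟩ := Finset.exists_subset_card_eq (s := T0) (n := n) (by omega)
  refine ⟨T, hTT0.trans hT0S, hTcard, ?_⟩
  have hsm : ∀ i i' : ℕ, i < i' → StrictMono (![i, i'] : Fin 2 → ℕ) := by
    intro i i' h
    rw [Fin.strictMono_iff_lt_succ]
    intro k
    fin_cases k
    simpa using h
  have hmem : ∀ i ∈ T0, ∀ i' ∈ T0, ∀ l : Fin 2, (![i, i'] : Fin 2 → ℕ) l ∈ T0 := by
    intro i hi i' hi' l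
    fin_cases l
    · simpa using hi
    · simpa using hi'
  intro g g'
  rcases hT0 (g, g', true) with h1 | h1
  · left
    intro i hi i' hi' hlt
    have := h1 ![i, i'] (hsm i i' hlt) (hmem i (hTT0 hi) i' (hTT0 hi'))
    simpa using this
  rcases hT0 (g, g', false) with h2 | h2
  · right
    intro i hi i' hi' hlt
    have := h2 ![i, i'] (hsm i i' hlt) (hmem i (hTT0 hi) i' (hTT0 hi'))
    simpa using this
  exfalso
  have h1' : ∀ i ∈ T0, ∀ i' ∈ T0, i < i' → U g' i' < K * U g i := by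
    intro i hi i' hi' hlt
    have := h1 ![i, i'] (hsm i i' hlt) (hmem i hi i' hi')
    simpa using this
  have h2' : ∀ i ∈ T0, ∀ i' ∈ T0, i < i' → U g i < K * U g' i' := by
    intro i hi i' hi' hlt
    have := h2 ![i, i'] (hsm i i' hlt) (hmem i hi i' hi')
    simpa using this
  let f := T0.orderEmbOfFin hT0card
  have m0 : f ⟨0, by omega⟩ ∈ T0 := Finset.orderEmbOfFin_mem _ _ _
  have m1 : f ⟨1, by omega⟩ ∈ T0 := Finset.orderEmbOfFin_mem _ _ _
  have m2 : f ⟨2, by omega⟩ ∈ T0 := Finset.orderEmbOfFin_mem _ _ _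
  have l01 : f ⟨0, by omega⟩ < f ⟨1, by omega⟩ := f.strictMono (by simp [Fin.lt_def])
  have l12 : f ⟨1, by omega⟩ < f ⟨2, by omega⟩ := f.strictMono (by simp [Fin.lt_def])
  have l02 := l01.trans l12
  have a1 := h1' _ m0 _ m2 l02
  have a2 := h2' _ m0 _ m1 l01
  have a3 := h1' _ m0 _ m1 l01
  have a4 := h2' _ m0 _ m2 l02
  have hK0 : 0 < K := lt_of_lt_of_le one_pos hK
  have b1 : U g' (f ⟨2, by omega⟩) < K ^ 2 * U g' (f ⟨1, by omega⟩) := by
    calc U g' (f ⟨2, by omega⟩) < K * U g (f ⟨0, by omega⟩) := a1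
      _ ≤ K * (K * U g' (f ⟨1, by omega⟩)) := by
        exact mul_le_mul_of_nonneg_left a2.le hK0.le
      _ = _ := by ring
  have b2 : U g' (f ⟨1, by omega⟩) < K ^ 2 * U g' (f ⟨2, by omega⟩) := by
    calc U g' (f ⟨1, by omega⟩) < K * U g (f ⟨0, by omega⟩) := a3
      _ ≤ K * (K * U g' (f ⟨2, by omega⟩)) := by
        exact mul_le_mul_of_nonneg_left a4.le hK0.le
      _ = _ := by ring
  rcases hmono g' with h | h
  · have := h _ (hT0S m1) _ (hT0S m2) l12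
    linarith
  · have := h _ (hT0S m1) _ (hT0S m2) l12
    linarith

end RC
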