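import Pool.Agent.Helper850.RC.Defs
import Pool.Agent.Helper850.RC.P_tow_mono
import Pool.Agent.Helper850.RC.P_tow_add
import Pool.Agent.Helper850.RC.P_tow_absorb
import Pool.Agent.Helper850.RC.P_exp_contr_family
import Pool.Agent.Helper850.RC.P_base_one
import Pool.Agent.Helper850.RC.P_sep_family
import Pool.Agent.Helper850.RC.P_csep_family

set_option autoImplicit false

namespace RC
open Finset BigOperators


theorem niceU : ∃ C : ℕ, ∀ (s q : ℕ) (K : ℝ), 1 ≤ K → ∃ a : ℕ,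
    ∀ (Λ : ℝ), 0 < Λ → ∀ (n : ℕ) (S : Finset ℕ) (g : Fin s → ℕ → ℝ)
      (cst : (Fin s → ℝ) → Fin q → ℝ),
      (∀ j, ∀ i ∈ S, ∀ i' ∈ S, i < i' → g j i + Λ ≤ g j i') →
      tow C (a * (n + 1)) ≤ S.card →
      ∃ T ⊆ S, T.card = n ∧ ∃ (β σ : Fin s → ℝ) (U : Fin s → ℕ → ℝ),
        (∀ j, σ j = 1 ∨ σ j = -1) ∧ (∀ j i, g j i = β j + σ j * U j i) ∧
        (∀ j, ∀ i ∈ T, Λ ≤ U j i) ∧ Sep K U T ∧ CSep K U (cst β) T := by
  obtain ⟨C1, h1⟩ := exp_contr_family
  obtain ⟨C2, h2⟩ := sep_family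
  refine ⟨C1 + C2, ?_⟩
  intro s q K hK
  have hK2 : 1 ≤ K ^ 2 := one_le_pow₀ hK
  have hK' : (1 : ℝ) ≤ 2 * K ^ 2 := by linarith
  obtain ⟨a1, h1⟩ := h1 s (2 * K ^ 2) hK'
  obtain ⟨a2, h2⟩ := h2 s
  obtain ⟨a3, h3⟩ := csep_family s q
  obtain ⟨a', ha'⟩ := tow_absorb C2 (3 * a1) (a2 * (a3 + 1))
  refine ⟨a', ?_⟩
  intro Λ hΛ n S g cst hg hcard
  have hsize : tow C1 (a1 * ((tow C2 (a2 * (a3 * (n + 1) + 1)) + 2) + 1)) ≤ S.card := by
    refine le_trans ?_ hcard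
    rw [← tow_add]
    apply tow_mono
    refine le_trans ?_ (ha' n)
    have e1 : a2 * (a3 * (n + 1) + 1) ≤ a2 * (a3 + 1) * (n + 1) := by
      rw [mul_assoc]
      apply Nat.mul_le_mul_left
      nlinarith
    have e2 := tow_mono C2 _ _ e1
    calc a1 * ((tow C2 (a2 * (a3 * (n + 1) + 1)) + 2) + 1)
        ≤ a1 * (3 * (tow C2 (a2 * (a3 + 1) * (n + 1)) + 1)) := by
          apply Nat.mul_le_mul_left
          omega
      _ = 3 * a1 * (tow C2 (a2 * (a3 + 1) * (n + 1)) + 1) := by ring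
  have hg0 : ∀ j, ∀ i ∈ S, ∀ i' ∈ S, i < i' → g j i < g j i' := by
    intro j i hi i' hi' hlt
    have := hg j i hi i' hi' hlt
    linarith
  obtain ⟨T1, hT1S, hT1c, hT1⟩ := h1 _ S g hg0 hsize
  have hne : T1.Nonempty := by
    rw [← card_pos, hT1c]; omega
  have huT : T1.min' hne ∈ T1 := T1.min'_mem hne
  have hvT : T1.max' hne ∈ T1 := T1.max'_mem hne
  have huv : T1.max' hne ≠ T1.min' hne := by
    intro h
    have hle : T1.card ≤ 1 := by
      rw [card_le_one]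
      intro a ha b hb
      have e1 := T1.min'_le a ha
      have e2 := T1.le_max' a ha
      have e3 := T1.min'_le b hb
      have e4 := T1.le_max' b hb
      rw [h] at e2 e4
      omega
    omega
  set u := T1.min' hne with hu
  set v := T1.max' hne with hv
  have hT2c : ((T1.erase u).erase v).card = tow C2 (a2 * (a3 * (n + 1) + 1)) := by
    rw [card_erase_of_mem (mem_erase.mpr ⟨huv, hvT⟩), card_erase_of_mem huT, hT1c]
    omega
  have hT2T1 : (T1.erase u).erase v ⊆ T1 := (erase_subset _ _).trans (erase_subset _ _)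
  have hbase : ∀ j : Fin s, ∃ (β : ℝ) (σ : ℝ) (U : ℕ → ℝ), (σ = 1 ∨ σ = -1) ∧
      (∀ i, g j i = β + σ * U i) ∧
      (∀ i ∈ (T1.erase u).erase v, Λ ≤ U i) ∧
      ((∀ i ∈ (T1.erase u).erase v, ∀ i' ∈ (T1.erase u).erase v, i < i' →
          (2 * K ^ 2) * U i ≤ U i') ∨
       (∀ i ∈ (T1.erase u).erase v, ∀ i' ∈ (T1.erase u).erase v, i < i' →
          (2 * K ^ 2) * U i' ≤ U i)) := by
    intro j
    exact base_one (2 * K ^ 2) Λ hK' hΛ (g j) T1 u v huT hvT (fun i hi => T1.min'_le i hi)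
      (fun i hi => T1.le_max' i hi)
      (fun i hi i' hi' hlt => hg j i (hT1S hi) i' (hT1S hi') hlt) (hT1 j)
  choose β σ U hσ hgU hΛU hmono using hbase
  have hpos : ∀ j, ∀ i ∈ (T1.erase u).erase v, 0 < U j i := fun j i hi =>
    lt_of_lt_of_le hΛ (hΛU j i hi)
  have hmono' : ∀ j, (∀ i ∈ (T1.erase u).erase v, ∀ i' ∈ (T1.erase u).erase v, i < i' →
      K ^ 2 * U j i ≤ U j i') ∨
      (∀ i ∈ (T1.erase u).erase v, ∀ i' ∈ (T1.erase u).erase v, i < i' →
      K ^ 2 * U j i' ≤ U j i) := by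
    intro j
    rcases hmono j with h | h
    · left
      intro i hi i' hi' hlt
      have e1 := h i hi i' hi' hlt
      have e2 := hpos j i hi
      nlinarith
    · right
      intro i hi i' hi' hlt
      have e1 := h i hi i' hi' hlt
      have e2 := hpos j i' hi'
      nlinarith
  obtain ⟨T3, hT3, hT3c, hsep⟩ := h2 K hK (a3 * (n + 1)) _ U hpos hmono' hT2c.ge
  obtain ⟨T, hT, hTc, hcsep⟩ := h3 K hK n T3 U (cst β) (fun j i hi => hpos j i (hT3 hi))
    (fun j => by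
      rcases hmono j with h | h
      · left
        intro i hi i' hi' hlt
        exact h i (hT3 hi) i' (hT3 hi') hlt
      · right
        intro i hi i' hi' hlt
        exact h i (hT3 hi) i' (hT3 hi') hlt) hT3c.ge
  refine ⟨T, (hT.trans hT3).trans (hT2T1.trans hT1S), hTc, β, σ, U, hσ, hgU,
    fun j i hi => hΛU j i (hT3 (hT hi)), ?_, hcsep⟩
  intro g1 g2
  rcases hsep g1 g2 with h | h
  · left
    intro i hi i' hi' hlt
    exact h i (hT hi) i' (hT hi') hlt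
  · right
    intro i hi i' hi' hlt
    exact h i (hT hi) i' (hT hi') hlt

end RC
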