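import Pool.Agent.Helper850.RC.Defs
import Pool.Agent.Helper850.RC.P_tow_mono
import Pool.Agent.Helper850.RC.P_tow_add
import Pool.Agent.Helper850.RC.P_tow_absorb
import Pool.Agent.Helper850.RC.P_ramseyP
import Pool.Agent.Helper850.RC.P_niceU
import Pool.Agent.Helper850.RC.P_dom_sum

set_option autoImplicit false

namespace RC
open Finset BigOperators


theorem stage2_grow {m : ℕ} (Λ : ℝ) (G : Fin m → ℕ → ℝ) (M : Finset ℕ) (h : Grow (Real.exp Λ) G M)
    (p q : Fin m) (hpq : p < q) (i i' : ℕ) (hi : i ∈ M) (hi' : i' ∈ M) (hii : i < i') :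
    (Real.log (G q i) - Real.log (G p i)) + Λ ≤ Real.log (G q i') - Real.log (G p i') := by
  obtain ⟨h0, h1⟩ := h
  have h2 := h1 p q hpq i hi i' hi' hii
  have h3 := Real.log_le_log (Real.exp_pos Λ) h2
  rw [Real.log_exp, Real.log_mul (div_ne_zero (h0 q i' hi') (h0 q i hi)) (div_ne_zero (h0 p i hi) (h0 p i' hi')),
    Real.log_div (h0 q i' hi') (h0 q i hi), Real.log_div (h0 p i hi) (h0 p i' hi')] at h3
  linarith

/-- signed value attached to a pair -/
noncomputable def stage2_bt {m s : ℕ} (e : {p : Fin m × Fin m // p.1 < p.2} ≃ Fin s) (β : Fin s → ℝ)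
    (u v : Fin m) : ℝ :=
  if h : v < u then β (e ⟨(v, u), h⟩) else if h : u < v then -β (e ⟨(u, v), h⟩) else 0

/-- index attached to a pair -/
noncomputable def stage2_ix {m s : ℕ} (e : {p : Fin m × Fin m // p.1 < p.2} ≃ Fin s) (j0 : Fin s)
    (u v : Fin m) : Fin s :=
  if h : v < u then e ⟨(v, u), h⟩ else if h : u < v then e ⟨(u, v), h⟩ else j0

theorem stage2_rel {m s : ℕ} (e : {p : Fin m × Fin m // p.1 < p.2} ≃ Fin s) (j0 : Fin s)
    (G : Fin m → ℕ → ℝ) (β σ : Fin s → ℝ) (U : Fin s → ℕ → ℝ)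
    (hg : ∀ j i, Real.log (G (e.symm j).1.2 i) - Real.log (G (e.symm j).1.1 i) = β j + σ j * U j i)
    (u v : Fin m) (i : ℕ) :
    Real.log (G u i) - Real.log (G v i) = stage2_bt e β u v + stage2_bt e σ u v * U (stage2_ix e j0 u v) i := by
  unfold stage2_bt stage2_ix
  rcases lt_trichotomy v u with h | h | h
  · rw [dif_pos h, dif_pos h, dif_pos h, ← hg, Equiv.symm_apply_apply]
  · subst h
    rw [dif_neg (lt_irrefl _), dif_neg (lt_irrefl _), dif_neg (lt_irrefl _), dif_neg (lt_irrefl _), sub_self,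
      zero_mul, add_zero]
  · have h' : ¬ v < u := not_lt.mpr h.le
    rw [dif_neg h', dif_neg h', dif_neg h', dif_pos h, dif_pos h, dif_pos h]
    have h1 := hg (e ⟨(u, v), h⟩) i
    rw [Equiv.symm_apply_apply] at h1
    have h2 : Real.log (G v i) - Real.log (G u i) =
        β (e ⟨(u, v), h⟩) + σ (e ⟨(u, v), h⟩) * U (e ⟨(u, v), h⟩) i := h1
    linarith

theorem stage2_tau {m s : ℕ} (e : {p : Fin m × Fin m // p.1 < p.2} ≃ Fin s)
    (σ : Fin s → ℝ) (hσ : ∀ j, σ j = 1 ∨ σ j = -1) (u v : Fin m) :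
    stage2_bt e σ u v = 0 ∨ stage2_bt e σ u v = 1 ∨ stage2_bt e σ u v = -1 := by
  unfold stage2_bt
  by_cases h : v < u
  · rw [dif_pos h]
    exact Or.inr (hσ _)
  · rw [dif_neg h]
    by_cases h' : u < v
    · rw [dif_pos h']
      rcases hσ (e ⟨(u, v), h'⟩) with h1 | h1
      · right; right
        rw [h1]
      · right; left
        rw [h1, neg_neg]
    · rw [dif_neg h']
      exact Or.inl rfl

theorem stage2_tau0 {m s : ℕ} (e : {p : Fin m × Fin m // p.1 < p.2} ≃ Fin s)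
    (σ : Fin s → ℝ) (hσ : ∀ j, σ j = 1 ∨ σ j = -1) (u v : Fin m) (huv : u ≠ v) :
    stage2_bt e σ u v ≠ 0 := by
  have h0 : ∀ j, σ j ≠ 0 := by
    intro j h
    rcases hσ j with h1 | h1
    · rw [h1] at h
      norm_num at h
    · rw [h1] at h
      norm_num at h
  unfold stage2_bt
  rcases lt_or_gt_of_ne huv with h | h
  · have h' : ¬ v < u := not_lt.mpr h.le
    rw [dif_neg h', dif_pos h]
    exact neg_ne_zero.mpr (h0 _)
  · have h' : v < u := h
    rw [dif_pos h']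
    exact h0 _

/-- one term -/
noncomputable def stage2_term {m k : ℕ} (G : Fin m → ℕ → ℝ) (c : (Fin k → Fin m) → ℝ)
    (J : Fin k → Fin m) (x : Fin k → ℕ) : ℝ := c J * ∏ l, G (J l) (x l)

theorem stage2_term_ne {m k : ℕ} (G : Fin m → ℕ → ℝ) (c : (Fin k → Fin m) → ℝ) (T : Finset ℕ)
    (h0 : ∀ r, ∀ i ∈ T, G r i ≠ 0) (J : Fin k → Fin m) (hJ : c J ≠ 0) (x : Fin k → ℕ)
    (hx : ∀ l, x l ∈ T) : stage2_term G c J x ≠ 0 := by
  unfold stage2_term
  apply mul_ne_zero hJ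
  rw [Finset.prod_ne_zero_iff]
  intro l _
  exact h0 _ _ (hx l)

theorem stage2_term_log {m k : ℕ} (G : Fin m → ℕ → ℝ) (c : (Fin k → Fin m) → ℝ) (T : Finset ℕ)
    (h0 : ∀ r, ∀ i ∈ T, G r i ≠ 0) (J : Fin k → Fin m) (hJ : c J ≠ 0) (x : Fin k → ℕ)
    (hx : ∀ l, x l ∈ T) :
    Real.log (stage2_term G c J x) = Real.log (c J) + ∑ l, Real.log (G (J l) (x l)) := by
  unfold stage2_term
  rw [Real.log_mul hJ, Real.log_prod]
  · intro l _
    exact h0 _ _ (hx l)
  · rw [Finset.prod_ne_zero_iff]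
    intro l _
    exact h0 _ _ (hx l)

/-- the dichotomy -/
theorem stage2_dich {m k s : ℕ} (Λ : ℝ) (hΛ : 0 < Λ) (e : {p : Fin m × Fin m // p.1 < p.2} ≃ Fin s)
    (G : Fin m → ℕ → ℝ) (c : (Fin k → Fin m) → ℝ) (T : Finset ℕ)
    (h0 : ∀ r, ∀ i ∈ T, G r i ≠ 0) (β σ : Fin s → ℝ) (U : Fin s → ℕ → ℝ)
    (hσ : ∀ j, σ j = 1 ∨ σ j = -1)
    (hg : ∀ j i, Real.log (G (e.symm j).1.2 i) - Real.log (G (e.symm j).1.1 i) = β j + σ j * U j i)
    (hU : ∀ j, ∀ i ∈ T, Λ ≤ U j i) (hs : Sep (2 * ((k : ℝ) + 1)) U T)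
    (J J' : Fin k → Fin m) (hJJ : J ≠ J') (hJ : c J ≠ 0) (hJ' : c J' ≠ 0)
    (hc : ∀ g : Fin s, (∀ i ∈ T, 2 * ((k : ℝ) + 1) * |Real.log (c J) - Real.log (c J') + ∑ l, stage2_bt e β (J l) (J' l)| ≤ U g i) ∨
      (∀ i ∈ T, 2 * ((k : ℝ) + 1) * U g i ≤ |Real.log (c J) - Real.log (c J') + ∑ l, stage2_bt e β (J l) (J' l)|)) :
    (∀ x : Fin k → ℕ, StrictMono x → (∀ l, x l ∈ T) →
      Real.exp (Λ / 2) * |stage2_term G c J' x| ≤ |stage2_term G c J x|) ∨
    (∀ x : Fin k → ℕ, StrictMono x → (∀ l, x l ∈ T) →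
      Real.exp (Λ / 2) * |stage2_term G c J x| ≤ |stage2_term G c J' x|) := by
  obtain ⟨l0, hl0⟩ : ∃ l, J l ≠ J' l := by
    by_contra hcon
    push Not at hcon
    exact hJJ (funext hcon)
  obtain ⟨j0⟩ : Nonempty (Fin s) := by
    rcases lt_or_gt_of_ne hl0 with h | h
    · exact ⟨e ⟨(J l0, J' l0), h⟩⟩
    · exact ⟨e ⟨(J' l0, J l0), h⟩⟩
  have hds := dom_sum k s (2 * ((k : ℝ) + 1)) Λ le_rfl hΛ U T hU hs _ hc
    (fun l => stage2_bt e σ (J l) (J' l)) (fun l => stage2_tau e σ hσ _ _)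
    ⟨l0, stage2_tau0 e σ hσ _ _ hl0⟩ (fun l => stage2_ix e j0 (J l) (J' l))
  have hkey : ∀ x : Fin k → ℕ, (∀ l, x l ∈ T) →
      Real.log (c J) - Real.log (c J') + ∑ l, stage2_bt e β (J l) (J' l) +
        ∑ l, stage2_bt e σ (J l) (J' l) * U (stage2_ix e j0 (J l) (J' l)) (x l) =
      Real.log (stage2_term G c J x) - Real.log (stage2_term G c J' x) := by
    intro x hx
    rw [stage2_term_log G c T h0 J hJ x hx, stage2_term_log G c T h0 J' hJ' x hx]
    have h1 : ∑ l, Real.log (G (J l) (x l)) - ∑ l, Real.log (G (J' l) (x l)) =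
        ∑ l, stage2_bt e β (J l) (J' l) +
        ∑ l, stage2_bt e σ (J l) (J' l) * U (stage2_ix e j0 (J l) (J' l)) (x l) := by
      rw [← Finset.sum_sub_distrib, ← Finset.sum_add_distrib]
      apply Finset.sum_congr rfl
      intro l _
      exact stage2_rel e j0 G β σ U hg _ _ _
    linarith
  rcases hds with h | h
  · left
    intro x hx hxT
    have h1 := h x hx hxT
    have h2 := hkey x hxT
    rw [← Real.exp_log_eq_abs (stage2_term_ne G c T h0 J hJ x hxT),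
      ← Real.exp_log_eq_abs (stage2_term_ne G c T h0 J' hJ' x hxT), ← Real.exp_add]
    apply Real.exp_le_exp.mpr
    linarith
  · right
    intro x hx hxT
    have h1 := h x hx hxT
    have h2 := hkey x hxT
    rw [← Real.exp_log_eq_abs (stage2_term_ne G c T h0 J hJ x hxT),
      ← Real.exp_log_eq_abs (stage2_term_ne G c T h0 J' hJ' x hxT), ← Real.exp_add]
    apply Real.exp_le_exp.mpr
    linarith

theorem stage2_sign (a b : ℝ) (h : |b| < |a|) : SignType.sign (a + b) = SignType.sign a := by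
  rcases lt_trichotomy a 0 with ha | ha | ha
  · rw [abs_of_neg ha] at h
    have h1 := (abs_lt.mp h).2
    rw [sign_neg ha, sign_neg (by linarith)]
  · rw [ha, abs_zero] at h
    exact absurd h (not_lt.mpr (abs_nonneg b))
  · rw [abs_of_pos ha] at h
    have h1 := (abs_lt.mp h).1
    rw [sign_pos ha, sign_pos (by linarith)]

theorem stage2_final {m k : ℕ} (G : Fin m → ℕ → ℝ) (c : (Fin k → Fin m) → ℝ) (T : Finset ℕ)
    (h0 : ∀ r, ∀ i ∈ T, G r i ≠ 0) (ε : Fin m → SignType)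
    (hε : ∀ r, ∀ i ∈ T, SignType.sign (G r i) = ε r) (E : ℝ) (hE : 2 * ((m : ℝ) ^ k + 1) ≤ E)
    (hd : ∀ J J' : Fin k → Fin m, J ≠ J' → c J ≠ 0 → c J' ≠ 0 →
      (∀ x : Fin k → ℕ, StrictMono x → (∀ l, x l ∈ T) →
        E * |stage2_term G c J' x| ≤ |stage2_term G c J x|) ∨
      (∀ x : Fin k → ℕ, StrictMono x → (∀ l, x l ∈ T) →
        E * |stage2_term G c J x| ≤ |stage2_term G c J' x|)) :
    SignHom (kval G c) T := by
  classical
  have hkv : ∀ x, kval G c x = ∑ J, stage2_term G c J x := fun x => rfl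
  by_cases hc : ∃ J, c J ≠ 0
  swap
  · push Not at hc
    refine ⟨0, fun x _ _ => ?_⟩
    have h1 : kval G c x = 0 := by
      rw [hkv]
      apply Finset.sum_eq_zero
      intro J _
      unfold stage2_term
      rw [hc J, zero_mul]
    rw [h1, sign_zero]
  by_cases hx : ∃ x : Fin k → ℕ, StrictMono x ∧ ∀ l, x l ∈ T
  swap
  · push Not at hx
    refine ⟨0, fun x h1 h2 => ?_⟩
    obtain ⟨l, hl⟩ := hx x h1
    exact absurd (h2 l) hl
  obtain ⟨J1, hJ1⟩ := hc
  obtain ⟨x0, hx0, hx0T⟩ := hx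
  obtain ⟨Js, _, hJs⟩ := Finset.exists_max_image (Finset.univ : Finset (Fin k → Fin m))
    (fun J => |stage2_term G c J x0|) ⟨J1, Finset.mem_univ _⟩
  have hJs' : ∀ J, |stage2_term G c J x0| ≤ |stage2_term G c Js x0| := fun J => hJs J (Finset.mem_univ _)
  have hpos : 0 < |stage2_term G c Js x0| :=
    lt_of_lt_of_le (abs_pos.mpr (stage2_term_ne G c T h0 J1 hJ1 x0 hx0T)) (hJs' J1)
  have hcJs : c Js ≠ 0 := by
    intro h1
    unfold stage2_term at hpos
    rw [h1, zero_mul, abs_zero] at hpos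
    exact lt_irrefl _ hpos
  have hmk : (0 : ℝ) ≤ (m : ℝ) ^ k := by positivity
  have hE1 : 1 < E := by linarith
  have hdom : ∀ J, J ≠ Js → ∀ x : Fin k → ℕ, StrictMono x → (∀ l, x l ∈ T) →
      E * |stage2_term G c J x| ≤ |stage2_term G c Js x| := by
    intro J hJ x hxm hxT
    by_cases hcJ : c J = 0
    · have h1 : stage2_term G c J x = 0 := by
        unfold stage2_term
        rw [hcJ, zero_mul]
      rw [h1, abs_zero, mul_zero]
      exact abs_nonneg _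
    · rcases hd J Js hJ hcJ hcJs with h | h
      · exfalso
        have h1 := h x0 hx0 hx0T
        have h2 := hJs' J
        nlinarith
      · exact h x hxm hxT
  refine ⟨SignType.sign (c Js) * ∏ l, ε (Js l), fun x hxm hxT => ?_⟩
  have hsum : kval G c x = stage2_term G c Js x + ∑ J ∈ Finset.univ.erase Js, stage2_term G c J x := by
    rw [hkv]
    exact (Finset.add_sum_erase Finset.univ (fun J => stage2_term G c J x) (Finset.mem_univ Js)).symm
  have htpos : 0 < |stage2_term G c Js x| := abs_pos.mpr (stage2_term_ne G c T h0 Js hcJs x hxT)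
  have hrest : |∑ J ∈ Finset.univ.erase Js, stage2_term G c J x| < |stage2_term G c Js x| := by
    have h1 : E * |∑ J ∈ Finset.univ.erase Js, stage2_term G c J x| ≤ (m : ℝ) ^ k * |stage2_term G c Js x| := by
      calc E * |∑ J ∈ Finset.univ.erase Js, stage2_term G c J x|
          ≤ E * ∑ J ∈ Finset.univ.erase Js, |stage2_term G c J x| :=
            mul_le_mul_of_nonneg_left (Finset.abs_sum_le_sum_abs _ _) (by linarith)
        _ = ∑ J ∈ Finset.univ.erase Js, E * |stage2_term G c J x| := Finset.mul_sum _ _ _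
        _ ≤ ∑ J ∈ Finset.univ.erase Js, |stage2_term G c Js x| :=
            Finset.sum_le_sum (fun J hJ => hdom J (Finset.ne_of_mem_erase hJ) x hxm hxT)
        _ ≤ ∑ J : Fin k → Fin m, |stage2_term G c Js x| :=
            Finset.sum_le_sum_of_subset_of_nonneg (Finset.erase_subset _ _) (fun _ _ _ => abs_nonneg _)
        _ = (m : ℝ) ^ k * |stage2_term G c Js x| := by
            rw [Finset.sum_const, nsmul_eq_mul, Finset.card_univ, Fintype.card_fun, Fintype.card_fin, Fintype.card_fin]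
            push_cast
            ring
    by_contra hcon
    push Not at hcon
    have h2 : E * |stage2_term G c Js x| ≤ E * |∑ J ∈ Finset.univ.erase Js, stage2_term G c J x| :=
      mul_le_mul_of_nonneg_left hcon (by linarith)
    nlinarith
  rw [hsum, stage2_sign _ _ hrest]
  unfold stage2_term
  rw [sign_mul]
  congr 1
  have h3 : SignType.sign (∏ l, G (Js l) (x l)) = ∏ l, SignType.sign (G (Js l) (x l)) :=
    map_prod (signHom : ℝ →*₀ SignType) _ _
  rw [h3]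
  apply Finset.prod_congr rfl
  intro l _
  exact hε _ _ (hxT l)

theorem stage2 : ∃ C : ℕ, ∀ m k : ℕ, ∃ (a : ℕ) (K : ℝ), 1 ≤ K ∧
    ∀ (n : ℕ) (M : Finset ℕ) (G : Fin m → ℕ → ℝ) (c : (Fin k → Fin m) → ℝ),
      Grow K G M → tow C (a * (n + 1)) ≤ M.card →
      ∃ T ⊆ M, T.card = n ∧ SignHom (kval G c) T := by
  obtain ⟨C1, hC1⟩ := ramseyP 1
  obtain ⟨C2, hC2⟩ := niceU
  refine ⟨C1 + C2, fun m k => ?_⟩
  obtain ⟨a1, ha1⟩ := hC1 (Fin m)
  obtain ⟨e⟩ : Nonempty ({p : Fin m × Fin m // p.1 < p.2} ≃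
    Fin (Fintype.card {p : Fin m × Fin m // p.1 < p.2})) := ⟨Fintype.equivFin _⟩
  obtain ⟨s, hs⟩ : ∃ s, s = Fintype.card {p : Fin m × Fin m // p.1 < p.2} := ⟨_, rfl⟩
  rw [← hs] at e
  obtain ⟨e2⟩ : Nonempty (((Fin k → Fin m) × (Fin k → Fin m)) ≃
    Fin (Fintype.card ((Fin k → Fin m) × (Fin k → Fin m)))) := ⟨Fintype.equivFin _⟩
  obtain ⟨q, hq⟩ : ∃ q, q = Fintype.card ((Fin k → Fin m) × (Fin k → Fin m)) := ⟨_, rfl⟩
  rw [← hq] at e2
  obtain ⟨a2, ha2⟩ := hC2 s q (2 * ((k : ℝ) + 1)) (by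
    have : (0 : ℝ) ≤ k := Nat.cast_nonneg k
    linarith)
  obtain ⟨a', ha'⟩ := tow_absorb C2 a1 a2
  obtain ⟨Λ, hΛdef⟩ : ∃ Λ : ℝ, Λ = 2 * Real.log (2 * ((m : ℝ) ^ k + 1)) := ⟨_, rfl⟩
  have hmk : (0 : ℝ) ≤ (m : ℝ) ^ k := by positivity
  have hΛ : 0 < Λ := by
    rw [hΛdef]
    have := Real.log_pos (show (1 : ℝ) < 2 * ((m : ℝ) ^ k + 1) by linarith)
    linarith
  have hexp : Real.exp (Λ / 2) = 2 * ((m : ℝ) ^ k + 1) := by
    rw [hΛdef]
    have : 2 * Real.log (2 * ((m : ℝ) ^ k + 1)) / 2 = Real.log (2 * ((m : ℝ) ^ k + 1)) := by ring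
    rw [this, Real.exp_log (by linarith)]
  refine ⟨a', Real.exp Λ, Real.one_le_exp hΛ.le, ?_⟩
  intro n M G c hG hM
  have hcard1 : tow C1 (a1 * (tow C2 (a2 * (n + 1)) + 1)) ≤ M.card := by
    refine le_trans ?_ hM
    rw [← tow_add]
    exact tow_mono C1 _ _ (ha' n)
  obtain ⟨T1, hT1M, hT1c, hT1⟩ := ha1 _ M hcard1 (fun r x => 0 < G r (x 0))
  -- signs
  have hsg : ∃ ε : Fin m → SignType, ∀ r, ∀ i ∈ T1, SignType.sign (G r i) = ε r := by
    have h1 : ∀ r, ∃ ε : SignType, ∀ i ∈ T1, SignType.sign (G r i) = ε := by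
      intro r
      rcases hT1 r with h | h
      · refine ⟨1, fun i hi => sign_pos ?_⟩
        exact h (fun _ => i) (Subsingleton.strictMono _) (fun _ => hi)
      · refine ⟨-1, fun i hi => sign_neg ?_⟩
        have h2 := h (fun _ => i) (Subsingleton.strictMono _) (fun _ => hi)
        exact lt_of_le_of_ne (not_lt.mp h2) (hG.1 r i (hT1M hi))
    choose ε hε using h1
    exact ⟨ε, hε⟩
  obtain ⟨ε, hε⟩ := hsg
  obtain ⟨T, hTT1, hTc, β, σ, U, hσ, hg, hU, hSep, hCSep⟩ := ha2 Λ hΛ n T1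
    (fun j i => Real.log (G (e.symm j).1.2 i) - Real.log (G (e.symm j).1.1 i))
    (fun β jq => Real.log (c (e2.symm jq).1) - Real.log (c (e2.symm jq).2) +
      ∑ l, stage2_bt e β ((e2.symm jq).1 l) ((e2.symm jq).2 l))
    (by
      intro j i hi i' hi' hii
      exact stage2_grow Λ G M hG _ _ (e.symm j).2 i i' (hT1M hi) (hT1M hi') hii)
    (by rw [hT1c])
  have h0 : ∀ r, ∀ i ∈ T, G r i ≠ 0 := fun r i hi => hG.1 r i (hT1M (hTT1 hi))
  refine ⟨T, hTT1.trans hT1M, hTc, ?_⟩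
  apply stage2_final G c T h0 ε (fun r i hi => hε r i (hTT1 hi)) (Real.exp (Λ / 2)) (le_of_eq hexp.symm)
  intro J J' hJJ hJ hJ'
  apply stage2_dich Λ hΛ e G c T h0 β σ U hσ hg hU hSep J J' hJJ hJ hJ'
  intro g
  have h1 := hCSep (e2 (J, J')) g
  simp only [Equiv.symm_apply_apply] at h1
  exact h1

end RC
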