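import Pool.Agent.Helper850.RC.Defs
import Pool.Agent.Helper850.RC.P_tow_mono
import Pool.Agent.Helper850.RC.P_tow_add
import Pool.Agent.Helper850.RC.P_tow_absorb
import Pool.Agent.Helper850.RC.P_tow_le_add
import Pool.Agent.Helper850.RC.P_ramseyP
import Pool.Agent.Helper850.RC.P_stage2
import Pool.Agent.Helper850.RC.P_deg_all
import Pool.Agent.Helper850.RC.P_rank_red
import Pool.Agent.Helper850.RC.P_cr_true
import Pool.Agent.Helper850.RC.P_flag
import Pool.Agent.Helper850.RC.P_basis_change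

set_option autoImplicit false

namespace RC
open Finset BigOperators


theorem mainA_base (k : ℕ) (F : Fin 0 → ℕ → ℝ) (c : (Fin k → Fin 0) → ℝ) (T : Finset ℕ) :
    SignHom (kval F c) T := by
  refine ⟨SignType.sign (kval F c (fun _ => 0)), ?_⟩
  intro x _ _
  congr 1
  cases k with
  | zero =>
    unfold kval
    apply Finset.sum_congr rfl
    intro J _
    rw [Finset.prod_of_isEmpty, Finset.prod_of_isEmpty]
  | succ k =>
    unfold kval
    rw [Finset.sum_of_isEmpty, Finset.sum_of_isEmpty]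

theorem mainA_size (C1 C2 C3 C4 a1 a2 a3 a4 n0 m : ℕ) : ∃ a : ℕ, ∀ n : ℕ,
    tow C1 (a1 * ((tow C4 (a4 * (n + 1)) + (m + 1) +
      tow C2 (a2 * ((n0 + 2 * (m + 1) + tow C3 (a3 * (n + 1))) + 1))) + 1)) ≤
      tow (C1 + ((C2 + C3) + C4)) (a * (n + 1)) := by
  obtain ⟨a', ha'⟩ := tow_absorb C3 (a2 * (n0 + 2 * (m + 1) + 1)) a3
  obtain ⟨a'', ha''⟩ := tow_absorb ((C2 + C3) + C4) (a1 * (m + 4)) (a4 + a')
  refine ⟨a'', ?_⟩
  intro n
  have h1 : a2 * ((n0 + 2 * (m + 1) + tow C3 (a3 * (n + 1))) + 1) ≤ tow C3 (a' * (n + 1)) := by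
    refine le_trans ?_ (ha' n)
    rw [mul_assoc]
    apply Nat.mul_le_mul_left
    nlinarith [Nat.zero_le (tow C3 (a3 * (n + 1))),
      Nat.zero_le ((n0 + 2 * (m + 1)) * tow C3 (a3 * (n + 1)))]
  have h2 : tow C2 (a2 * ((n0 + 2 * (m + 1) + tow C3 (a3 * (n + 1))) + 1)) ≤
      tow (C2 + C3) (a' * (n + 1)) := by
    rw [← tow_add]
    exact tow_mono C2 _ _ h1
  have h3 : tow (C2 + C3) (a' * (n + 1)) ≤ tow ((C2 + C3) + C4) ((a4 + a') * (n + 1)) := by
    refine le_trans (tow_le_add _ C4 _) (tow_mono _ _ _ ?_)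
    apply Nat.mul_le_mul_right
    omega
  have h4 : tow C4 (a4 * (n + 1)) ≤ tow ((C2 + C3) + C4) ((a4 + a') * (n + 1)) := by
    rw [add_comm (C2 + C3) C4]
    refine le_trans (tow_le_add _ (C2 + C3) _) (tow_mono _ _ _ ?_)
    apply Nat.mul_le_mul_right
    omega
  rw [← tow_add]
  apply tow_mono
  refine le_trans ?_ (ha'' n)
  rw [mul_assoc]
  apply Nat.mul_le_mul_left
  have h5 := h2.trans h3
  generalize tow ((C2 + C3) + C4) ((a4 + a') * (n + 1)) = X at h4 h5 ⊢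
  nlinarith [Nat.zero_le (m * X)]

theorem mainA (m : ℕ) : ∃ C : ℕ, ∀ k : ℕ, ∃ a : ℕ,
    ∀ (n : ℕ) (S : Finset ℕ) (F : Fin m → ℕ → ℝ) (c : (Fin k → Fin m) → ℝ),
      tow C (a * (n + 1)) ≤ S.card → ∃ T ⊆ S, T.card = n ∧ SignHom (kval F c) T := by
  induction m with
  | zero =>
    refine ⟨0, fun k => ⟨1, ?_⟩⟩
    intro n S F c hS
    have hS' : n ≤ S.card := by
      have h1 : tow 0 (1 * (n + 1)) = n + 1 := by
        show 1 * (n + 1) = n + 1
        ring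
      omega
    obtain ⟨T, hT, hTc⟩ := Finset.exists_subset_card_eq hS'
    exact ⟨T, hT, hTc, mainA_base k F c T⟩
  | succ m ih =>
    obtain ⟨C4, hC4⟩ := ih
    obtain ⟨C1, hC1⟩ := ramseyP (m + 1)
    obtain ⟨C2, hC2⟩ := ramseyP (m + 1 + 2)
    obtain ⟨C3, hC3⟩ := stage2
    refine ⟨C1 + ((C2 + C3) + C4), ?_⟩
    intro k
    obtain ⟨a3, K, hK, h3⟩ := hC3 (m + 1) k
    obtain ⟨n0, hn0⟩ := cr_true (m + 1) K
    obtain ⟨a4, h4⟩ := hC4 k
    obtain ⟨a1, h1⟩ := hC1 Unit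
    obtain ⟨a2, h2⟩ := hC2 (Fin m)
    obtain ⟨a, ha⟩ := mainA_size C1 C2 C3 C4 a1 a2 a3 a4 n0 m
    refine ⟨a, ?_⟩
    intro n S F c hS
    obtain ⟨N2, hN2⟩ : ∃ N2, N2 = n0 + 2 * (m + 1) + tow C3 (a3 * (n + 1)) := ⟨_, rfl⟩
    obtain ⟨N1, hN1⟩ : ∃ N1, N1 = tow C4 (a4 * (n + 1)) + (m + 1) + tow C2 (a2 * (N2 + 1)) :=
      ⟨_, rfl⟩
    have hS1 : tow C1 (a1 * (N1 + 1)) ≤ S.card := by
      rw [hN1, hN2]
      exact (ha n).trans hS
    obtain ⟨T1, hT1S, hT1c, hT1⟩ := h1 N1 S hS1 (fun _ x =>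
      ∃ p : Fin (m + 1) → ℝ, p ≠ 0 ∧ ∀ l : Fin (m + 1), comb F p (x l) = 0)
    rcases hT1 () with hpos | hneg
    · -- degenerate case
      obtain ⟨p, hp, hp0⟩ := deg_all (m + 1) F T1 (by rw [hT1c, hN1]; omega) (by
        intro E hE hEc
        obtain ⟨p, hp, hpl⟩ := hpos (E.orderEmbOfFin hEc) (E.orderEmbOfFin hEc).strictMono
          (fun l => hE (E.orderEmbOfFin_mem hEc l))
        refine ⟨p, hp, ?_⟩
        intro i hi
        have h5 : i ∈ Set.range (E.orderEmbOfFin hEc) := by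
          rw [Finset.range_orderEmbOfFin]
          exact hi
        obtain ⟨l, rfl⟩ := h5
        exact hpl l)
      obtain ⟨F', c', hF'⟩ := rank_red m k F c T1 p hp hp0
      obtain ⟨T, hT, hTc, s, hs⟩ := h4 n T1 F' c' (by rw [hT1c, hN1]; omega)
      refine ⟨T, hT.trans hT1S, hTc, s, ?_⟩
      intro x hx hxT
      rw [hF' x (fun l => hT (hxT l))]
      exact hs x hx hxT
    · -- nondegenerate case
      have hND : NonDeg F T1 := by
        intro E hE hEc p hpE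
        by_contra hp
        apply hneg (E.orderEmbOfFin hEc) (E.orderEmbOfFin hEc).strictMono
          (fun l => hE (E.orderEmbOfFin_mem hEc l))
        exact ⟨p, hp, fun l => hpE _ (E.orderEmbOfFin_mem hEc l)⟩
      obtain ⟨T2, hT2T1, hT2c, hT2⟩ := h2 N2 T1 (by rw [hT1c, hN1]; omega)
        (fun r w => CRge K F r.val (by have := r.isLt; omega) w)
      have hND2 : NonDeg F T2 := fun E hE => hND E (hE.trans hT2T1)
      have hCR : ∀ (r : ℕ) (hr : r + 3 < (m + 1) + 2) (w : Fin ((m + 1) + 2) → ℕ), StrictMono w →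
          (∀ l, w l ∈ T2) → CRge K F r hr w := by
        intro r hr
        exact hn0 F T2 hND2 (by rw [hT2c, hN2]; omega) r hr (hT2 ⟨r, by omega⟩)
      obtain ⟨M, hM, hMc, p, hG, hp⟩ := flag (m + 1) (by omega) K hK F T2 hND2
        (by rw [hT2c, hN2]; omega) hCR
      obtain ⟨c', hc'⟩ := basis_change (m + 1) k F c p hp
      obtain ⟨T, hT, hTc, s, hs⟩ := h3 n M (fun r => comb F (p r)) c' hG (by
        rw [hT2c, hN2] at hMc
        omega)
      refine ⟨T, (hT.trans hM).trans (hT2T1.trans hT1S), hTc, s, ?_⟩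
      intro x hx hxT
      rw [hc' x]
      exact hs x hx hxT

end RC
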