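import Pool.Agent.Helper850.RC.Defs

set_option autoImplicit false

namespace RC
open Finset BigOperators


theorem poly_kval (d D k : ℕ) (f : MvPolynomial (Fin k × Fin d) ℝ)
    (hf : ∀ z, f.degreeOf z ≤ D) :
    ∃ (mon : Fin ((D + 1) ^ d) → (Fin d → ℝ) → ℝ) (c : (Fin k → Fin ((D + 1) ^ d)) → ℝ),
      ∀ p : Fin k → Fin d → ℝ,
        MvPolynomial.eval (fun z : Fin k × Fin d => p z.1 z.2) f =
          ∑ J : Fin k → Fin ((D + 1) ^ d), c J * ∏ l, mon (J l) (p l) := by
  classical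
  obtain ⟨e⟩ : Nonempty (Fin ((D + 1) ^ d) ≃ (Fin d → Fin (D + 1))) :=
    ⟨finFunctionFinEquiv.symm⟩
  obtain ⟨S, hS⟩ : ∃ S : (Fin k → Fin ((D + 1) ^ d)) → (Fin k × Fin d →₀ ℕ),
      ∀ J z, S J z = (e (J z.1) z.2 : ℕ) :=
    ⟨fun J => Finsupp.equivFunOnFinite.symm (fun z => (e (J z.1) z.2 : ℕ)), fun _ _ => rfl⟩
  have hinj : Function.Injective S := by
    intro J J' h
    funext l
    apply e.injective
    funext j
    apply Fin.ext
    have := DFunLike.congr_fun h (l, j)
    rwa [hS, hS] at this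
  have hsub : f.support ⊆ Finset.univ.image S := by
    intro s hs
    rw [Finset.mem_image]
    have hle : ∀ z, s z < D + 1 := fun z =>
      Nat.lt_succ_of_le ((MvPolynomial.monomial_le_degreeOf z hs).trans (hf z))
    refine ⟨fun l => e.symm (fun j => ⟨s (l, j), hle _⟩), Finset.mem_univ _, ?_⟩
    ext z
    rw [hS, Equiv.apply_symm_apply]
  refine ⟨fun a y => ∏ j, y j ^ (e a j : ℕ), fun J => MvPolynomial.coeff (S J) f, fun p => ?_⟩
  rw [MvPolynomial.eval_eq', Finset.sum_subset hsub, Finset.sum_image (fun J _ J' _ h => hinj h)]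
  · refine Finset.sum_congr rfl fun J _ => ?_
    congr 1
    rw [Fintype.prod_prod_type]
    refine Finset.prod_congr rfl fun l _ => Finset.prod_congr rfl fun j _ => ?_
    rw [hS]
  · intro s _ hs
    rw [MvPolynomial.notMem_support_iff.1 hs, zero_mul]

end RC
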