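import Pool.Agent.Helper850.RC.Defs

set_option autoImplicit false

namespace RC
open Finset BigOperators


theorem j24563_claim (C : ℕ) : ∀ B : ℝ, ∃ X0 : ℝ, ∀ X : ℝ, X0 ≤ X →
    B ≤ (Real.log^[C]) X ∧ ∀ x : ℕ, (x : ℝ) ≤ (Real.log^[C]) X → (tow C x : ℝ) ≤ X := by
  induction C with
  | zero =>
    intro B
    refine ⟨B, fun X hX => ⟨hX, fun x hx => ?_⟩⟩
    simpa [tow] using hx
  | succ C ih =>
    intro B
    obtain ⟨X0, h0⟩ := ih B
    refine ⟨max (Real.exp X0) 1, fun X hX => ?_⟩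
    have hX1 : Real.exp X0 ≤ X := (le_max_left _ _).trans hX
    have hXpos : 0 < X := lt_of_lt_of_le (Real.exp_pos _) hX1
    have hlog : X0 ≤ Real.log X := (Real.le_log_iff_exp_le hXpos).2 hX1
    obtain ⟨h1, h2⟩ := h0 (Real.log X) hlog
    rw [Function.iterate_succ_apply]
    refine ⟨h1, fun x hx => ?_⟩
    have h3 := h2 x hx
    have h4 : ((tow (C + 1) x : ℕ) : ℝ) = (2 : ℝ) ^ (tow C x) := by
      simp [tow]
    rw [h4]
    have h5 : (2 : ℝ) ^ (tow C x) ≤ Real.exp 1 ^ (tow C x) := by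
      apply pow_le_pow_left₀ (by norm_num)
      have := Real.add_one_le_exp 1
      linarith
    have h6 : Real.exp 1 ^ (tow C x) = Real.exp (tow C x) := by
      rw [← Real.exp_nat_mul, mul_one]
    rw [h6] at h5
    refine h5.trans ?_
    rw [← Real.le_log_iff_exp_le hXpos]
    exact h3

theorem tow_log (C a : ℕ) : ∃ c : ℝ, 0 < c ∧ ∀ᶠ N : ℕ in Filter.atTop,
    ∃ n : ℕ, tow C (a * (n + 1)) ≤ N ∧ c * (Real.log^[C]) (N : ℝ) ≤ n := by
  obtain ⟨X0, h0⟩ := j24563_claim C (4 * ((a : ℝ) + 1))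
  refine ⟨1 / (2 * ((a : ℝ) + 1)), by positivity, ?_⟩
  filter_upwards [(tendsto_natCast_atTop_atTop (R := ℝ)).eventually_ge_atTop X0] with N hN
  obtain ⟨h1, h2⟩ := h0 N hN
  set L : ℝ := (Real.log^[C]) (N : ℝ) with hL
  have ha : (0 : ℝ) < (a : ℝ) + 1 := by positivity
  have h3 : 4 ≤ L / ((a : ℝ) + 1) := by
    rw [le_div_iff₀ ha]; exact h1
  have h4 : 4 ≤ ⌊L / ((a : ℝ) + 1)⌋₊ := Nat.le_floor (by exact_mod_cast h3)
  obtain ⟨n, hn⟩ : ∃ n : ℕ, ⌊L / ((a : ℝ) + 1)⌋₊ = n + 1 := ⟨⌊L / ((a : ℝ) + 1)⌋₊ - 1, by omega⟩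
  have h5 : ((n : ℝ) + 1) ≤ L / ((a : ℝ) + 1) := by
    have := Nat.floor_le (by linarith : 0 ≤ L / ((a : ℝ) + 1))
    rw [hn] at this
    push_cast at this
    exact this
  have h6 : L / ((a : ℝ) + 1) < (n : ℝ) + 2 := by
    have := Nat.lt_floor_add_one (L / ((a : ℝ) + 1))
    rw [hn] at this
    push_cast at this
    linarith
  refine ⟨n, ?_, ?_⟩
  · have h7 : ((a * (n + 1) : ℕ) : ℝ) ≤ L := by
      push_cast
      rw [le_div_iff₀ ha] at h5
      have hn0 : (0 : ℝ) ≤ n := Nat.cast_nonneg n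
      nlinarith
    exact_mod_cast h2 _ h7
  · have h8 : 1 / (2 * ((a : ℝ) + 1)) * L = (L / ((a : ℝ) + 1)) / 2 := by
      field_simp
    rw [h8]
    linarith

end RC
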